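import Mathlib

/-!
# Spectral triples, Dixmier traces, normal functionals

Definitions used for the noncommutative integral `S ↦ Tr_ω(S ⟨D⟩^{-n})`.
-/

set_option autoImplicit false

open Filter Topology
open scoped InnerProductSpace ComplexOrder

noncomputable section

namespace Pool.Agent.H668R3.NcInt

variable {H : Type} [NormedAddCommGroup H] [InnerProductSpace ℂ H]

/-- `F` is an operator of finite rank at most `k`. -/
def RankLE (F : H →L[ℂ] H) (k : ℕ) : Prop :=
  FiniteDimensional ℂ (LinearMap.range F.toLinearMap) ∧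
    Module.finrank ℂ (LinearMap.range F.toLinearMap) ≤ k

/-- `sv T k` is the `(k+1)`-st singular value of `T` (for compact `T`: the `(k+1)`-st largest
eigenvalue of `|T|`, counted with multiplicity), given as the distance of `T` to the operators of
rank at most `k`. -/
def sv (T : H →L[ℂ] H) (k : ℕ) : ℝ :=
  sInf {r : ℝ | ∃ F : H →L[ℂ] H, RankLE F k ∧ r = ‖T - F‖}

/-- The sequence of averages `1 / log (1 + N) * (μ_1(T) + ... + μ_N(T))`, `N = i + 1 ≥ 1`. -/
def avg (T : H →L[ℂ] H) (i : ℕ) : ℝ :=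
  (∑ k ∈ Finset.range (i + 1), sv T k) / Real.log (1 + ((i : ℝ) + 1))

/-- The ideal `M_{1,∞}`: compact operators for which the averages are bounded. -/
def MemM1inf (T : H →L[ℂ] H) : Prop :=
  IsCompactOperator T ∧ ∃ C : ℝ, ∀ i : ℕ, avg T i ≤ C

/-- Bounded real sequences. -/
def Bdd (x : ℕ → ℝ) : Prop := ∃ C : ℝ, ∀ n, |x n| ≤ C

/-- `ω` is a dilation invariant generalised limit on `ℓ^∞`: a positive linear functional on the
bounded sequences, which extends the limit and satisfies `ω(σ_m x) = ω(x)` for all `m ≥ 1`, where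
`σ_m (x_0, x_1, ...) = (x_0, ..., x_0, x_1, ..., x_1, ...)` (each term is repeated `m` times).  The
values of `ω` at unbounded sequences play no role. -/
structure IsDilationLimit (ω : (ℕ → ℝ) → ℝ) : Prop where
  add : ∀ x y : ℕ → ℝ, Bdd x → Bdd y → ω (fun n => x n + y n) = ω x + ω y
  smul : ∀ (c : ℝ) (x : ℕ → ℝ), Bdd x → ω (fun n => c * x n) = c * ω x
  nonneg : ∀ x : ℕ → ℝ, Bdd x → (∀ n, 0 ≤ x n) → 0 ≤ ω x
  limit : ∀ (x : ℕ → ℝ) (c : ℝ), Tendsto x atTop (𝓝 c) → ω x = c
  dilation : ∀ (x : ℕ → ℝ) (m : ℕ), Bdd x → 0 < m → ω (fun n => x (n / m)) = ω x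

/-- `Maps D x y`: the vector `x` lies in the domain of `D` and `D x = y`. -/
def Maps (D : H →ₗ.[ℂ] H) (x y : H) : Prop := ∃ h : x ∈ D.domain, D ⟨x, h⟩ = y

/-- The operator `a` maps the domain of `D` into itself and the commutator `[D, a]` is bounded. -/
def CommBounded (D : H →ₗ.[ℂ] H) (a : H →L[ℂ] H) : Prop :=
  ∃ C : ℝ, ∀ x y : H, Maps D x y → ∃ z : H, Maps D (a x) z ∧ ‖z - a y‖ ≤ C * ‖x‖

variable [CompleteSpace H]

/-- The adjoint `T*`. -/
def adj (T : H →L[ℂ] H) : H →L[ℂ] H := star T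

/-- The real part `(T + T*)/2`. -/
def reP (T : H →L[ℂ] H) : H →L[ℂ] H := (2⁻¹ : ℂ) • (T + adj T)

/-- The imaginary part `(T - T*)/(2i)`, which is the real part of `-iT`. -/
def imP (T : H →L[ℂ] H) : H →L[ℂ] H := reP ((-Complex.I) • T)

/-- The positive part of a self-adjoint operator (continuous functional calculus). -/
def posP (T : H →L[ℂ] H) : H →L[ℂ] H := cfc (fun x : ℝ => max x 0) T

/-- The negative part of a self-adjoint operator (continuous functional calculus). -/
def negP (T : H →L[ℂ] H) : H →L[ℂ] H := cfc (fun x : ℝ => max (-x) 0) T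

/-- The Dixmier trace: `Tr_ω(T) = ω(avg T)` for positive `T` in `M_{1,∞}`, extended linearly by
decomposing `T` into the positive and negative parts of its real and imaginary parts. -/
def dixmier (ω : (ℕ → ℝ) → ℝ) (T : H →L[ℂ] H) : ℂ :=
  ((ω (avg (posP (reP T))) - ω (avg (negP (reP T))) : ℝ) : ℂ) +
  Complex.I * ((ω (avg (posP (imP T))) - ω (avg (negP (imP T))) : ℝ) : ℂ)

/-- `R` is the operator `⟨D⟩^{-1} = (1 + D²)^{-1/2}`: a positive bounded operator whose square
is the inverse of `1 + D²`, that is, for every `x` the vector `R²x` lies in the domain of `D²` and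
`R²x + D²R²x = x`. -/
def IsBracketInv (D : H →ₗ.[ℂ] H) (R : H →L[ℂ] H) : Prop :=
  R.IsPositive ∧ ∀ x : H, ∃ y : H, Maps D (R (R x)) y ∧ Maps D y (x - R (R x))

/-- The *-algebra `A` is countably generated. -/
def CountablyGenerated (A : StarSubalgebra ℂ (H →L[ℂ] H)) : Prop :=
  ∃ S : Set (H →L[ℂ] H), S.Countable ∧ StarAlgebra.adjoin ℂ S = A

/-- All commutators of `D` with elements of `A` are bounded. -/
def AllCommBounded (D : H →ₗ.[ℂ] H) (A : StarSubalgebra ℂ (H →L[ℂ] H)) : Prop :=
  ∀ a ∈ A, CommBounded D a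

/-- A spectral triple `(A, H, D)`: `A` is a countably generated *-subalgebra of `B(H)` containing
the identity operator, `D` is a self-adjoint operator on `H`, the commutators `[D, a]`, `a ∈ A`, are
bounded and `R = (1 + D²)^{-1/2}` is compact. -/
structure SpectralTriple (H : Type) [NormedAddCommGroup H] [InnerProductSpace ℂ H]
    [CompleteSpace H] where
  /-- the algebra -/
  A : StarSubalgebra ℂ (H →L[ℂ] H)
  countably_generated : CountablyGenerated A
  /-- the operator `D` -/
  D : H →ₗ.[ℂ] H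
  selfAdjoint : IsSelfAdjoint D
  commutator_bounded : AllCommBounded D A
  /-- the operator `⟨D⟩^{-1}` -/
  R : H →L[ℂ] H
  bracket : IsBracketInv D R
  compact : IsCompactOperator R

/-- The bicommutant `A''` of `A`. -/
def SpectralTriple.bicommutant (T : SpectralTriple H) : Set (H →L[ℂ] H) :=
  Set.centralizer (Set.centralizer (T.A : Set (H →L[ℂ] H)))

/-- `n` is the smallest value such that `⟨D⟩^{-p}` is trace class (that is, the `p`-th powers of
the singular values of `⟨D⟩^{-1}` are summable) for all `p > n`. -/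
def SpectralTriple.IsDim (T : SpectralTriple H) (n : ℝ) : Prop :=
  IsLeast {q : ℝ | ∀ p : ℝ, q < p → Summable (fun k => sv T.R k ^ p)} n

/-- The power `⟨D⟩^{-n}` (continuous functional calculus of `⟨D⟩^{-1}`). -/
def SpectralTriple.bracketPow (T : SpectralTriple H) (n : ℝ) : H →L[ℂ] H :=
  cfc (fun x : ℝ => x ^ n) T.R

/-- `⟨D⟩^{-n}` lies in the ideal `M_{1,∞}`. -/
def SpectralTriple.PowMemM1inf (T : SpectralTriple H) (n : ℝ) : Prop := MemM1inf (T.bracketPow n)

/-- The functional `Φ_ω(S) = Tr_ω(S ⟨D⟩^{-n})`. -/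
def SpectralTriple.Phi (T : SpectralTriple H) (n : ℝ) (ω : (ℕ → ℝ) → ℝ) (S : H →L[ℂ] H) : ℂ :=
  dixmier ω (S * T.bracketPow n)

/-- `A''` contains no nonzero operator of finite rank. -/
def SpectralTriple.NoFiniteRank (T : SpectralTriple H) : Prop :=
  ∀ F ∈ T.bicommutant, ∀ k : ℕ, RankLE F k → F = 0

/-- `A''` is equal to its own commutant, that is, it is maximal abelian. -/
def SpectralTriple.MaximalAbelian (T : SpectralTriple H) : Prop :=
  T.bicommutant = Set.centralizer T.bicommutant

/-- `P` is a nonzero orthogonal projection. -/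
def NonzeroProj (P : H →L[ℂ] H) : Prop := IsStarProjection P ∧ P ≠ 0

/-- `A''` contains no minimal projection: every nonzero projection `P` in `A''` majorises a
nonzero projection `Q ≠ P` in `A''`. -/
def SpectralTriple.NoMinimalProjection (T : SpectralTriple H) : Prop :=
  ∀ P ∈ T.bicommutant, NonzeroProj P →
    ∃ Q ∈ T.bicommutant, NonzeroProj Q ∧ Q * P = Q ∧ Q ≠ P

omit [CompleteSpace H] in
/-- The net of positive operators `S_α` is increasing and converges strongly to `T`. -/
def IncreasesTo {ι : Type} [PartialOrder ι] (S : ι → (H →L[ℂ] H)) (T : H →L[ℂ] H) : Prop :=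
  (∀ α, (S α).IsPositive) ∧ (∀ α β, α ≤ β → (S β - S α).IsPositive) ∧
    ∀ x, Tendsto (fun α => S α x) atTop (𝓝 (T x))

omit [CompleteSpace H] in
/-- The positive functional `ρ` on the von Neumann algebra `N` is normal: `ρ(S)` is the supremum
of the `ρ(S_α)` for every increasing net of positive elements `S_α` of `N` which converges strongly
to `S ∈ N`. -/
def IsNormalOn (N : Set (H →L[ℂ] H)) (ρ : (H →L[ℂ] H) → ℂ) : Prop :=
  ∀ (ι : Type) [PartialOrder ι] [Nonempty ι] [IsDirected ι (· ≤ ·)] (S : ι → (H →L[ℂ] H)),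
    (∀ α, S α ∈ N) → ∀ T ∈ N, IncreasesTo S T →
    IsLUB (Set.range fun α => (ρ (S α)).re) (ρ T).re

/-- The functional `Φ_ω` is normal on `A''`. -/
def SpectralTriple.PhiNormal (T : SpectralTriple H) (n : ℝ) (ω : (ℕ → ℝ) → ℝ) : Prop :=
  IsNormalOn T.bicommutant (T.Phi n ω)

end Pool.Agent.H668R3.NcInt
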