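import Mathlib
import Pool.Agent.H668R3.NcInt.Defs

/-! weighted permutation operators on `ℓ²(I)` and unbounded diagonal operators -/

set_option autoImplicit false

open Filter Topology
open scoped InnerProductSpace ComplexOrder

noncomputable section

namespace Pool.Agent.H668R3.NcInt

/-- `ℓ²(I)` -/
abbrev L2 (I : Type) : Type := lp (fun _ : I => ℂ) 2

variable {I : Type}

lemma two_toReal : (2 : ENNReal).toReal = 2 := by simp

lemma l2_summable (x : L2 I) : Summable (fun i => ‖x i‖ ^ 2) := by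
  have h := (lp.memℓp x).summable (by rw [two_toReal]; norm_num)
  simpa [two_toReal] using h

lemma l2_norm_sq (x : L2 I) : ‖x‖ ^ 2 = ∑' i, ‖x i‖ ^ 2 := by
  have h := lp.norm_rpow_eq_tsum (p := 2) (by rw [two_toReal]; norm_num) x
  simpa [two_toReal] using h

lemma memℓp_two {f : I → ℂ} (h : Summable (fun i => ‖f i‖ ^ 2)) : Memℓp f 2 := by
  apply memℓp_gen
  simpa [two_toReal] using h

/-- making an element of `ℓ²` -/
def mk2 (f : I → ℂ) (h : Summable (fun i => ‖f i‖ ^ 2)) : L2 I := ⟨f, memℓp_two h⟩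

@[simp] lemma mk2_apply (f : I → ℂ) (h : Summable (fun i => ‖f i‖ ^ 2)) (i : I) :
    (mk2 f h) i = f i := rfl

lemma l2_ext {x y : L2 I} (h : ∀ i, x i = y i) : x = y := lp.ext (funext h)

@[simp] lemma l2_add (x y : L2 I) (i : I) : (x + y) i = x i + y i := rfl
@[simp] lemma l2_sub (x y : L2 I) (i : I) : (x - y) i = x i - y i := rfl
@[simp] lemma l2_smul (c : ℂ) (x : L2 I) (i : I) : (c • x) i = c * x i := rfl
@[simp] lemma l2_zero (i : I) : (0 : L2 I) i = 0 := rfl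

lemma wp_summable (c : I → ℂ) (hc : ∀ i, ‖c i‖ ≤ 1) (σ : I ≃ I) (x : L2 I) :
    Summable (fun i => ‖c i * x (σ i)‖ ^ 2) := by
  have h1 : Summable (fun i => ‖x (σ i)‖ ^ 2) := (σ.summable_iff).mpr (l2_summable x)
  refine Summable.of_nonneg_of_le (fun i => by positivity) (fun i => ?_) h1
  rw [norm_mul, mul_pow]
  have := hc i
  have h2 : ‖c i‖ ^ 2 ≤ 1 := pow_le_one₀ (norm_nonneg _) this
  nlinarith [sq_nonneg ‖x (σ i)‖]

/-- the operator `(T x)_i = c_i x_{σ i}` -/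
def wp (c : I → ℂ) (hc : ∀ i, ‖c i‖ ≤ 1) (σ : I ≃ I) : L2 I →L[ℂ] L2 I :=
  LinearMap.mkContinuous
    { toFun := fun x => mk2 (fun i => c i * x (σ i)) (wp_summable c hc σ x)
      map_add' := fun x y => l2_ext fun i => by simp [mul_add]
      map_smul' := fun a x => l2_ext fun i => by simp; ring } 1 (fun x => by
    rw [one_mul]
    have h1 : ‖mk2 (fun i => c i * x (σ i)) (wp_summable c hc σ x)‖ ^ 2 ≤ ‖x‖ ^ 2 := by
      rw [l2_norm_sq, l2_norm_sq, ← σ.tsum_eq (fun i => ‖x i‖ ^ 2)]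
      refine (wp_summable c hc σ x).tsum_le_tsum (fun i => ?_)
        ((σ.summable_iff).mpr (l2_summable x))
      simp only [mk2_apply]
      rw [norm_mul, mul_pow]
      have h2 : ‖c i‖ ^ 2 ≤ 1 := pow_le_one₀ (norm_nonneg _) (hc i)
      nlinarith [sq_nonneg ‖x (σ i)‖]
    exact le_of_sq_le_sq h1 (norm_nonneg _))

@[simp] lemma wp_apply (c : I → ℂ) (hc : ∀ i, ‖c i‖ ≤ 1) (σ : I ≃ I) (x : L2 I) (i : I) :
    (wp c hc σ x) i = c i * x (σ i) := rfl

lemma wp_norm_le (c : I → ℂ) (hc : ∀ i, ‖c i‖ ≤ 1) (σ : I ≃ I) : ‖wp c hc σ‖ ≤ 1 :=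
  LinearMap.mkContinuous_norm_le _ zero_le_one _

/-- bounded by `δ` if the coefficients are -/
lemma norm_le_of_coeff (T : L2 I →L[ℂ] L2 I) (c : I → ℂ) (δ : ℝ) (hδ : 0 ≤ δ)
    (hT : ∀ x i, (T x) i = c i * x i) (hc : ∀ i, ‖c i‖ ≤ δ) : ‖T‖ ≤ δ := by
  refine ContinuousLinearMap.opNorm_le_bound _ hδ fun x => ?_
  have h1 : ‖T x‖ ^ 2 ≤ (δ * ‖x‖) ^ 2 := by
    rw [mul_pow, l2_norm_sq, l2_norm_sq, ← tsum_mul_left]
    refine (l2_summable (T x)).tsum_le_tsum (fun i => ?_) ((l2_summable x).mul_left _)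
    rw [hT, norm_mul, mul_pow]
    have := hc i
    gcongr
  exact le_of_sq_le_sq h1 (by positivity)

/-- the diagonal operator with coefficients `c` -/
def dg (c : I → ℂ) (hc : ∀ i, ‖c i‖ ≤ 1) : L2 I →L[ℂ] L2 I := wp c hc (Equiv.refl I)

@[simp] lemma dg_apply (c : I → ℂ) (hc : ∀ i, ‖c i‖ ≤ 1) (x : L2 I) (i : I) :
    (dg c hc x) i = c i * x i := rfl

lemma l2_inner (x y : L2 I) : ⟪x, y⟫_ℂ = ∑' i, (starRingEnd ℂ) (x i) * y i := by
  rw [lp.inner_eq_tsum]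
  congr 1
  ext i
  simp [mul_comm]

lemma summable_inner' (x y : L2 I) : Summable (fun i => (starRingEnd ℂ) (x i) * y i) := by
  have := lp.summable_inner (𝕜 := ℂ) x y
  refine this.congr fun i => ?_
  simp [mul_comm]

lemma dg_isPositive (r : I → ℝ) (hr : ∀ i, 0 ≤ r i)
    (hc : ∀ i, ‖((r i : ℝ) : ℂ)‖ ≤ 1) : (dg (fun i => ((r i : ℝ) : ℂ)) hc).IsPositive := by
  rw [ContinuousLinearMap.isPositive_iff_complex]
  intro x
  have h1 : ⟪dg (fun i => ((r i : ℝ) : ℂ)) hc x, x⟫_ℂ = ((∑' i, r i * ‖x i‖ ^ 2 : ℝ) : ℂ) := by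
    rw [l2_inner, Complex.ofReal_tsum]
    congr 1
    ext i
    rw [dg_apply]
    simp only [map_mul, Complex.conj_ofReal]
    rw [mul_assoc, ← Complex.normSq_eq_conj_mul_self, Complex.normSq_eq_norm_sq]
    push_cast
    ring
  rw [h1]
  refine ⟨by simp, ?_⟩
  have h2 : (0 : ℝ) ≤ ∑' i, r i * ‖x i‖ ^ 2 :=
    tsum_nonneg fun i => mul_nonneg (hr i) (by positivity)
  exact h2

end Pool.Agent.H668R3.NcInt
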