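import Mathlib
import Pool.Agent.H668R3.NcInt.Ops

/-! unbounded diagonal operators on `ℓ²(I)` -/

set_option autoImplicit false

open Filter Topology
open scoped InnerProductSpace ComplexOrder

noncomputable section

namespace Pool.Agent.H668R3.NcInt

variable {I : Type}

lemma summable_add_sq {f g : I → ℂ} (hf : Summable fun i => ‖f i‖ ^ 2)
    (hg : Summable fun i => ‖g i‖ ^ 2) : Summable fun i => ‖f i + g i‖ ^ 2 := by
  have := (l2_summable (mk2 f hf + mk2 g hg))
  simpa using this

lemma summable_mul_sq {f : I → ℂ} (a : ℂ)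
    (hf : Summable fun i => ‖f i‖ ^ 2) : Summable fun i => ‖a * f i‖ ^ 2 := by
  have := (l2_summable (a • mk2 f hf))
  simpa using this

/-- the unbounded diagonal operator with real coefficients `l` -/
def Dg (l : I → ℝ) : L2 I →ₗ.[ℂ] L2 I where
  domain :=
    { carrier := {x | Summable fun i => ‖(l i : ℂ) * x i‖ ^ 2}
      add_mem' := fun {x y} hx hy => by
        have := summable_add_sq hx hy
        refine this.congr fun i => ?_
        rw [l2_add, mul_add]
      zero_mem' := by simp [summable_zero]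
      smul_mem' := fun c x hx => by
        have := summable_mul_sq c hx
        refine this.congr fun i => ?_
        rw [l2_smul]; ring_nf }
  toFun :=
    { toFun := fun x => mk2 (fun i => (l i : ℂ) * (x : L2 I) i) x.2
      map_add' := fun x y => l2_ext fun i => by simp [mul_add]
      map_smul' := fun c x => l2_ext fun i => by simp; ring }

lemma mem_Dg {l : I → ℝ} {x : L2 I} :
    x ∈ (Dg l).domain ↔ Summable fun i => ‖(l i : ℂ) * x i‖ ^ 2 := Iff.rfl

@[simp] lemma Dg_apply (l : I → ℝ) (x : (Dg l).domain) (i : I) :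
    (Dg l x) i = (l i : ℂ) * (x : L2 I) i := rfl

variable [DecidableEq I]

/-- basis vector -/
def e (i : I) : L2 I := lp.single 2 i 1

lemma e_self (i : I) : (e i : L2 I) i = 1 := by
  unfold e; exact lp.single_apply_self 2 i 1

lemma e_ne {i j : I} (h : j ≠ i) : (e i : L2 I) j = 0 := by
  unfold e; exact lp.single_apply_ne 2 i 1 h

lemma e_apply (i j : I) : (e i : L2 I) j = if j = i then 1 else 0 := by
  split_ifs with h
  · rw [h]; exact e_self i
  · exact e_ne h

lemma e_mem (l : I → ℝ) (i : I) : e i ∈ (Dg l).domain := by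
  rw [mem_Dg]
  apply summable_of_ne_finset_zero (s := {i})
  intro j hj
  rw [Finset.mem_singleton] at hj
  rw [e_ne hj]; simp

lemma inner_e (i : I) (x : L2 I) : ⟪e i, x⟫_ℂ = x i := by
  unfold e
  rw [lp.inner_single_left]
  simp

lemma hasSum_e (x : L2 I) : HasSum (fun i => x i • (e i : L2 I)) x := by
  have h := lp.hasSum_single (p := 2) (by simp) x
  have h2 : (fun i => x i • (e i : L2 I)) = fun i => lp.single 2 i (x i) := by
    ext1 i
    apply l2_ext
    intro j
    rw [l2_smul, e_apply]
    split_ifs with hij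
    · rw [hij]; simp
    · rw [mul_zero, lp.single_apply_ne 2 i _ hij]
  rw [h2]
  exact h

lemma dense_Dg (l : I → ℝ) : Dense ((Dg l).domain : Set (L2 I)) := by
  intro x
  refine mem_closure_of_tendsto (hasSum_e x) (Filter.Eventually.of_forall fun s => ?_)
  exact Submodule.sum_mem _ fun i _ => Submodule.smul_mem _ _ (e_mem l i)

lemma Dg_formal (l : I → ℝ) : (Dg l).IsFormalAdjoint (Dg l) := by
  intro x y
  rw [l2_inner, l2_inner]
  congr 1
  ext i
  rw [Dg_apply, Dg_apply, map_mul, Complex.conj_ofReal]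
  ring

lemma Dg_selfAdjoint (l : I → ℝ) : IsSelfAdjoint (Dg l) := by
  rw [LinearPMap.isSelfAdjoint_def]
  have hd := dense_Dg l
  apply le_antisymm
  · -- adjoint ≤ Dg
    have key : ∀ y : ((Dg l).adjoint).domain, ∀ i, ((Dg l).adjoint y) i = (l i : ℂ) * (y : L2 I) i := by
      intro y i
      have h1 := LinearPMap.adjoint_isFormalAdjoint hd y ⟨e i, e_mem l i⟩
      have h2 : Dg l ⟨e i, e_mem l i⟩ = (l i : ℂ) • (e i : L2 I) := by
        apply l2_ext
        intro j
        rw [Dg_apply, l2_smul, e_apply]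
        split_ifs with hij
        · rw [hij]
        · simp
      rw [h2, inner_smul_right] at h1
      have h3 : ⟪(Dg l).adjoint y, e i⟫_ℂ = (starRingEnd ℂ) (((Dg l).adjoint y) i) := by
        rw [← inner_conj_symm, inner_e]
      have h4 : ⟪(y : L2 I), e i⟫_ℂ = (starRingEnd ℂ) ((y : L2 I) i) := by
        rw [← inner_conj_symm, inner_e]
      have h1' : ⟪(Dg l).adjoint y, e i⟫_ℂ = (l i : ℂ) * ⟪(y : L2 I), e i⟫_ℂ := h1
      rw [h3, h4] at h1'
      have h5 := congrArg (starRingEnd ℂ) h1'
      simpa using h5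
    refine ⟨fun y hy => ?_, fun y z hyz => ?_⟩
    · rw [mem_Dg]
      have h1 := l2_summable ((Dg l).adjoint ⟨y, hy⟩)
      exact h1.congr fun i => by rw [key]
    · apply l2_ext
      intro i
      rw [key, Dg_apply, hyz]
  · exact LinearPMap.IsFormalAdjoint.le_adjoint hd (Dg_formal l)

end Pool.Agent.H668R3.NcInt
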