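import Mathlib
import Pool.Agent.H668R3.NcInt.Unb

/-! bounds for the singular values of diagonal operators -/

set_option autoImplicit false

open Filter Topology
open scoped InnerProductSpace ComplexOrder

noncomputable section

namespace Pool.Agent.H668R3.NcInt

section general
variable {H : Type} [NormedAddCommGroup H] [InnerProductSpace ℂ H]

lemma rankLE_zero (k : ℕ) : RankLE (0 : H →L[ℂ] H) k := by
  have h : LinearMap.range ((0 : H →L[ℂ] H).toLinearMap) = ⊥ := by
    ext x; simp
  unfold RankLE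
  rw [h]
  exact ⟨inferInstance, by simp⟩

lemma sv_nonneg (T : H →L[ℂ] H) (k : ℕ) : 0 ≤ sv T k := by
  apply Real.sInf_nonneg
  rintro r ⟨F, _, rfl⟩
  exact norm_nonneg _

lemma sv_le (T F : H →L[ℂ] H) (k : ℕ) (hF : RankLE F k) : sv T k ≤ ‖T - F‖ := by
  apply csInf_le
  · refine ⟨0, ?_⟩
    rintro r ⟨F, _, rfl⟩
    exact norm_nonneg _
  · exact ⟨F, hF, rfl⟩

lemma le_sv (T : H →L[ℂ] H) (k : ℕ) (c : ℝ) (h : ∀ F : H →L[ℂ] H, RankLE F k → c ≤ ‖T - F‖) :
    c ≤ sv T k := by
  apply le_csInf
  · exact ⟨_, 0, rankLE_zero k, rfl⟩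
  · rintro r ⟨F, hF, rfl⟩
    exact h F hF

/-- a subspace of dimension `k+1` on which `T` is bounded below -/
lemma le_sv_of_subspace (T : H →L[ℂ] H) (k : ℕ) (c : ℝ) (V : Submodule ℂ H)
    [FiniteDimensional ℂ V] (hV : k < Module.finrank ℂ V) (hT : ∀ x ∈ V, c * ‖x‖ ≤ ‖T x‖) :
    c ≤ sv T k := by
  apply le_sv
  intro F hF
  obtain ⟨hfd, hrk⟩ := hF
  let G : V →ₗ[ℂ] LinearMap.range F.toLinearMap := (F.toLinearMap.rangeRestrict).comp V.subtype
  have hker : 0 < Module.finrank ℂ (LinearMap.ker G) := by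
    have h1 := LinearMap.finrank_range_add_finrank_ker G
    have h2 : Module.finrank ℂ (LinearMap.range G) ≤ k :=
      (Submodule.finrank_le _).trans hrk
    omega
  obtain ⟨x, hx, hx0⟩ : ∃ x : V, x ∈ LinearMap.ker G ∧ x ≠ 0 := by
    have : LinearMap.ker G ≠ ⊥ := by
      intro h
      rw [h] at hker
      simp at hker
    obtain ⟨x, hx, hx0⟩ := Submodule.exists_mem_ne_zero_of_ne_bot this
    exact ⟨x, hx, hx0⟩
  have hFx : F (x : H) = 0 := by
    have : G x = 0 := hx
    have := congrArg Subtype.val this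
    exact this
  have h1 := (T - F).le_opNorm (x : H)
  have h2 : (T - F) (x : H) = T (x : H) := by
    change T (x : H) - F (x : H) = _
    rw [hFx, sub_zero]
  rw [h2] at h1
  have h3 := (hT x x.2).trans h1
  have hpos : 0 < ‖(x : H)‖ := by
    rw [norm_pos_iff]
    simpa using hx0
  exact le_of_mul_le_mul_right h3 hpos

end general

variable {I : Type} [DecidableEq I]

/-- the span of finitely many basis vectors -/
def spanE (s : Finset I) : Submodule ℂ (L2 I) := Submodule.span ℂ ((fun i => (e i : L2 I)) '' s)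

instance (s : Finset I) : FiniteDimensional ℂ (spanE s) := by
  unfold spanE
  exact FiniteDimensional.span_of_finite ℂ (s.finite_toSet.image _)

lemma mem_spanE {s : Finset I} {x : L2 I} : x ∈ spanE s ↔ ∀ i ∉ s, x i = 0 := by
  constructor
  · intro hx i hi
    refine Submodule.span_induction (p := fun (y : L2 I) _ => y i = 0) ?_ ?_ ?_ ?_ hx
    · rintro _ ⟨j, hj, rfl⟩
      exact e_ne (fun h => hi (h ▸ hj))
    · rfl
    · intro y z _ _ hy hz
      rw [l2_add, hy, hz, add_zero]
    · intro c y _ hy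
      rw [l2_smul, hy, mul_zero]
  · intro h
    have h1 : x = ∑ i ∈ s, x i • (e i : L2 I) := by
      refine (hasSum_e x).unique ?_
      apply hasSum_sum_of_ne_finset_zero
      intro i hi
      rw [h i hi, zero_smul]
    rw [h1]
    exact Submodule.sum_mem _ fun i hi => Submodule.smul_mem _ _
      (Submodule.subset_span ⟨i, hi, rfl⟩)

lemma e_linearIndependent : LinearIndependent ℂ (fun i => (e i : L2 I)) := by
  rw [linearIndependent_iff']
  intro s g hg i hi
  have h1 := congrArg (fun y : L2 I => ⟪e i, y⟫_ℂ) hg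
  simp only [inner_sum, inner_smul_right, inner_zero_right, inner_e, e_apply] at h1
  simpa [hi] using h1

lemma finrank_spanE (s : Finset I) : Module.finrank ℂ (spanE s) = s.card := by
  have h1 : spanE s = Submodule.span ℂ (Set.range (fun i : s => (e (i : I) : L2 I))) := by
    unfold spanE
    congr 1
    ext x
    constructor
    · rintro ⟨i, hi, rfl⟩
      exact ⟨⟨i, hi⟩, rfl⟩
    · rintro ⟨i, rfl⟩
      exact ⟨i, i.2, rfl⟩
  have h2 : LinearIndependent ℂ (fun i : s => (e (i : I) : L2 I)) :=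
    e_linearIndependent.comp (fun i : s => (i : I)) Subtype.val_injective
  rw [h1, finrank_span_eq_card h2]
  simp

lemma sv_dg_upper (T : L2 I →L[ℂ] L2 I) (c : I → ℂ) (hc : ∀ i, ‖c i‖ ≤ 1)
    (hT : ∀ x i, (T x) i = c i * x i) (s : Finset I) (k : ℕ)
    (hs : s.card ≤ k) (δ : ℝ) (hδ : 0 ≤ δ) (h : ∀ i ∉ s, ‖c i‖ ≤ δ) : sv T k ≤ δ := by
  let c' : I → ℂ := fun i => if i ∈ s then c i else 0
  have hc' : ∀ i, ‖c' i‖ ≤ 1 := by
    intro i
    simp only [c']
    split_ifs
    · exact hc i
    · simp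
  have hle : LinearMap.range (dg c' hc').toLinearMap ≤ spanE s := by
    rintro _ ⟨x, rfl⟩
    rw [mem_spanE]
    intro i hi
    change (dg c' hc' x) i = 0
    rw [dg_apply]
    simp [c', hi]
  have hF : RankLE (dg c' hc') k := by
    refine ⟨Submodule.finiteDimensional_of_le hle, ?_⟩
    exact ((Submodule.finrank_mono hle).trans (finrank_spanE s).le).trans hs
  refine (sv_le T _ k hF).trans ?_
  refine norm_le_of_coeff _ (fun i => c i - c' i) δ hδ (fun x i => ?_) (fun i => ?_)
  · change (T x) i - (dg c' hc' x) i = _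
    rw [hT, dg_apply]; ring
  · simp only [c']
    split_ifs with hi
    · simpa using hδ
    · simpa using h i hi

lemma sv_dg_lower (T : L2 I →L[ℂ] L2 I) (c : I → ℂ)
    (hT : ∀ x i, (T x) i = c i * x i) (s : Finset I) (k : ℕ)
    (hs : k < s.card) (δ : ℝ) (hδ : 0 ≤ δ) (h : ∀ i ∈ s, δ ≤ ‖c i‖) : δ ≤ sv T k := by
  apply le_sv_of_subspace T k δ (spanE s) (by rw [finrank_spanE]; exact hs)
  intro x hx
  rw [mem_spanE] at hx
  have h1 : (δ * ‖x‖) ^ 2 ≤ ‖T x‖ ^ 2 := by
    rw [mul_pow, l2_norm_sq, l2_norm_sq, ← tsum_mul_left]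
    refine ((l2_summable x).mul_left _).tsum_le_tsum (fun i => ?_) (l2_summable (T x))
    rw [hT, norm_mul, mul_pow]
    by_cases hi : i ∈ s
    · have := h i hi
      gcongr
    · rw [hx i hi]; simp
  exact le_of_sq_le_sq h1 (norm_nonneg _)

lemma compact_of_sv (T : L2 I →L[ℂ] L2 I) (c : I → ℂ) (hc : ∀ i, ‖c i‖ ≤ 1)
    (hT : ∀ x i, (T x) i = c i * x i)
    (h : ∀ ε : ℝ, 0 < ε → ∃ s : Finset I, ∀ i ∉ s, ‖c i‖ ≤ ε) : IsCompactOperator T := by
  have hcl := isClosed_setOfPred_isCompactOperator (σ₁₂ := RingHom.id ℂ) (M₁ := L2 I) (M₂ := L2 I)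
  have : T ∈ closure {f : L2 I →L[ℂ] L2 I | IsCompactOperator f} := by
    rw [Metric.mem_closure_iff]
    intro ε hε
    obtain ⟨s, hs⟩ := h (ε / 2) (by linarith)
    let c' : I → ℂ := fun i => if i ∈ s then c i else 0
    have hc' : ∀ i, ‖c' i‖ ≤ 1 := by
      intro i
      simp only [c']
      split_ifs
      · exact hc i
      · simp
    have hle : LinearMap.range (dg c' hc').toLinearMap ≤ spanE s := by
      rintro _ ⟨x, rfl⟩
      rw [mem_spanE]
      intro i hi
      change (dg c' hc' x) i = 0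
      rw [dg_apply]
      simp [c', hi]
    refine ⟨dg c' hc', ?_, ?_⟩
    · -- finite rank operators are compact
      let V := spanE s
      let g : L2 I →L[ℂ] V := (dg c' hc').codRestrict V (fun x => hle ⟨x, rfl⟩)
      have h1 : (dg c' hc') = V.subtypeL.comp g := by
        ext1 x; rfl
      have h2 : IsCompactOperator (V.subtypeL : V →L[ℂ] L2 I) := by
        have : ProperSpace V := FiniteDimensional.proper ℂ V
        have : LocallyCompactSpace V := inferInstance
        exact isCompactOperator_of_locallyCompactSpace_rng _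
      have h3 := h2.comp_clm g
      change IsCompactOperator (dg c' hc')
      rw [h1]
      exact h3
    · rw [dist_eq_norm]
      have : ‖T - dg c' hc'‖ ≤ ε / 2 := by
        refine norm_le_of_coeff _ (fun i => c i - c' i) (ε / 2) (by linarith) (fun x i => ?_)
          (fun i => ?_)
        · change (T x) i - (dg c' hc' x) i = _
          rw [hT, dg_apply]; ring
        · simp only [c']
          split_ifs with hi
          · simpa using (by linarith : (0:ℝ) ≤ ε / 2)
          · simpa using hs i hi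
      linarith
  rw [hcl.closure_eq] at this
  exact this

end Pool.Agent.H668R3.NcInt
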