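import Mathlib
import Pool.Agent.H668R3.NcInt.Sv

/-! the example: weights and singular values -/

set_option autoImplicit false

open Filter Topology
open scoped InnerProductSpace ComplexOrder

noncomputable section

namespace Pool.Agent.H668R3.NcInt

/-- the index set -/
abbrev Ix : Type := ℕ × Finset ℕ

/-- the level of a finite set -/
def lev (s : Finset ℕ) : ℕ := s.sup (fun i => i + 1)

lemma lev_le {s : Finset ℕ} {l : ℕ} : lev s ≤ l ↔ s ⊆ Finset.range l := by
  unfold lev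
  rw [Finset.sup_le_iff]
  constructor
  · intro h i hi
    rw [Finset.mem_range]
    exact h i hi
  · intro h i hi
    exact Finset.mem_range.mp (h hi)

@[simp] lemma lev_empty : lev ∅ = 0 := by simp [lev]

/-- the eigenvalues of `D` -/
def lam (p : Ix) : ℝ := ((p.1 : ℝ) + 1) * 4 ^ lev p.2

lemma lam_nat (p : Ix) : lam p = (((p.1 + 1) * 4 ^ lev p.2 : ℕ) : ℝ) := by
  unfold lam; push_cast; ring

lemma one_le_lam (p : Ix) : 1 ≤ lam p := by
  rw [lam_nat]
  have : 1 ≤ (p.1 + 1) * 4 ^ lev p.2 := Nat.one_le_iff_ne_zero.mpr (by positivity)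
  exact_mod_cast this

/-- the eigenvalues of `(1 + D²)^{-1/2}` -/
def rr (p : Ix) : ℝ := 1 / Real.sqrt (1 + lam p ^ 2)

lemma rr_pos (p : Ix) : 0 < rr p := by
  unfold rr; positivity

lemma rr_sq (p : Ix) : rr p ^ 2 * (1 + lam p ^ 2) = 1 := by
  unfold rr
  rw [div_pow, one_pow, Real.sq_sqrt (by positivity)]
  field_simp

lemma rr_le_inv (p : Ix) : rr p ≤ 1 / lam p := by
  have h := one_le_lam p
  unfold rr
  apply one_div_le_one_div_of_le (by linarith)
  apply Real.le_sqrt_of_sq_le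
  linarith

lemma rr_le_one (p : Ix) : rr p ≤ 1 :=
  (rr_le_inv p).trans (by rw [div_le_one (by linarith [one_le_lam p])]; exact one_le_lam p)

lemma inv_le_rr (p : Ix) : 1 / (lam p + 1) ≤ rr p := by
  have h := one_le_lam p
  unfold rr
  apply one_div_le_one_div_of_le (by positivity)
  rw [Real.sqrt_le_left (by linarith)]
  nlinarith

lemma rr_norm (p : Ix) : ‖((rr p : ℝ) : ℂ)‖ ≤ 1 := by
  rw [Complex.norm_real, Real.norm_eq_abs, abs_of_pos (rr_pos p)]
  exact rr_le_one p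

/-- the operator `(1 + D²)^{-1/2}` -/
def RR : L2 Ix →L[ℂ] L2 Ix := dg (fun p => ((rr p : ℝ) : ℂ)) rr_norm

lemma RR_apply (x : L2 Ix) (p : Ix) : (RR x) p = ((rr p : ℝ) : ℂ) * x p := rfl

lemma RR_isPositive : RR.IsPositive := dg_isPositive _ (fun p => (rr_pos p).le) rr_norm

lemma bracket_RR : IsBracketInv (Dg lam) RR := by
  refine ⟨RR_isPositive, fun x => ?_⟩
  suffices h : ∃ (h₁ : RR (RR x) ∈ (Dg lam).domain) (h₂ : Dg lam ⟨RR (RR x), h₁⟩ ∈ (Dg lam).domain),
      RR (RR x) + Dg lam ⟨Dg lam ⟨RR (RR x), h₁⟩, h₂⟩ = x by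
    obtain ⟨h₁, h₂, h₃⟩ := h
    refine ⟨_, ⟨h₁, rfl⟩, ⟨h₂, ?_⟩⟩
    rw [eq_sub_iff_add_eq, add_comm]
    exact h₃
  have h1 : RR (RR x) ∈ (Dg lam).domain := by
    rw [mem_Dg]
    refine Summable.of_nonneg_of_le (fun i => by positivity) (fun i => ?_) (l2_summable x)
    rw [RR_apply, RR_apply, ← mul_assoc, ← mul_assoc, norm_mul, mul_pow]
    have h2 : ‖((lam i : ℝ) : ℂ) * ((rr i : ℝ) : ℂ) * ((rr i : ℝ) : ℂ)‖ ≤ 1 := by
      rw [← Complex.ofReal_mul, ← Complex.ofReal_mul, Complex.norm_real, Real.norm_eq_abs,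
        abs_of_nonneg (by have := rr_pos i; have := one_le_lam i; positivity)]
      have h3 := rr_sq i
      have h4 := one_le_lam i
      nlinarith [rr_pos i, sq_nonneg (lam i - 1), sq_nonneg (rr i)]
    have h5 : ‖((lam i : ℝ) : ℂ) * ((rr i : ℝ) : ℂ) * ((rr i : ℝ) : ℂ)‖ ^ 2 ≤ 1 :=
      pow_le_one₀ (norm_nonneg _) h2
    nlinarith [sq_nonneg ‖x i‖]
  have h2 : Dg lam ⟨RR (RR x), h1⟩ ∈ (Dg lam).domain := by
    rw [mem_Dg]
    refine Summable.of_nonneg_of_le (fun i => by positivity) (fun i => ?_) (l2_summable x)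
    rw [Dg_apply, RR_apply, RR_apply, ← mul_assoc, ← mul_assoc, ← mul_assoc, norm_mul, mul_pow]
    have h2 : ‖((lam i : ℝ) : ℂ) * ((lam i : ℝ) : ℂ) * ((rr i : ℝ) : ℂ) * ((rr i : ℝ) : ℂ)‖ ≤ 1 := by
      rw [← Complex.ofReal_mul, ← Complex.ofReal_mul, ← Complex.ofReal_mul, Complex.norm_real,
        Real.norm_eq_abs,
        abs_of_nonneg (by have := rr_pos i; have := one_le_lam i; positivity)]
      have h3 := rr_sq i
      nlinarith [rr_pos i, sq_nonneg (rr i)]
    have h5 : ‖((lam i : ℝ) : ℂ) * ((lam i : ℝ) : ℂ) * ((rr i : ℝ) : ℂ) * ((rr i : ℝ) : ℂ)‖ ^ 2 ≤ 1 :=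
      pow_le_one₀ (norm_nonneg _) h2
    nlinarith [sq_nonneg ‖x i‖]
  refine ⟨h1, h2, ?_⟩
  apply l2_ext
  intro i
  rw [l2_add, Dg_apply, Dg_apply, RR_apply, RR_apply]
  have h3 := rr_sq i
  have h4 : ((rr i : ℝ) : ℂ) ^ 2 * (1 + ((lam i : ℝ) : ℂ) ^ 2) = 1 := by
    exact_mod_cast congrArg (fun z : ℝ => (z : ℂ)) h3
  linear_combination (x i) * h4

/-- the indices with eigenvalue at most `X` -/
def low (X : ℕ) : Finset Ix :=
  (Finset.range (X + 1)).biUnion fun l =>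
    (Finset.range (X / 4 ^ l)) ×ˢ (Finset.range l).powerset

lemma card_low (X : ℕ) : (low X).card ≤ 2 * X := by
  unfold low
  refine Finset.card_biUnion_le.trans ?_
  have h1 : ∀ l ∈ Finset.range (X + 1),
      ((Finset.range (X / 4 ^ l)) ×ˢ (Finset.range l).powerset).card ≤ X / 2 ^ l := by
    intro l _
    rw [Finset.card_product, Finset.card_range, Finset.card_powerset, Finset.card_range]
    rw [Nat.le_div_iff_mul_le (by positivity)]
    calc X / 4 ^ l * 2 ^ l * 2 ^ l = X / 4 ^ l * 4 ^ l := by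
          rw [mul_assoc, ← mul_pow]
          norm_num
      _ ≤ X := Nat.div_mul_le_self _ _
  refine (Finset.sum_le_sum h1).trans ?_
  have := Nat.geom_sum_le (b := 2) le_rfl X (X + 1)
  calc ∑ i ∈ Finset.range (X + 1), X / 2 ^ i ≤ X * 2 / (2 - 1) := this
    _ = 2 * X := by norm_num [mul_comm]

lemma not_mem_low {X : ℕ} {p : Ix} (h : p ∉ low X) : (X : ℝ) + 1 ≤ lam p := by
  by_contra hlt
  push Not at hlt
  rw [lam_nat] at hlt
  have h1 : (p.1 + 1) * 4 ^ lev p.2 ≤ X := by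
    have : (((p.1 + 1) * 4 ^ lev p.2 : ℕ) : ℝ) < ((X + 1 : ℕ) : ℝ) := by push_cast at hlt ⊢; exact hlt
    exact Nat.lt_succ_iff.mp (by exact_mod_cast this)
  apply h
  unfold low
  rw [Finset.mem_biUnion]
  refine ⟨lev p.2, ?_, ?_⟩
  · rw [Finset.mem_range, Nat.lt_succ_iff]
    calc lev p.2 ≤ 4 ^ lev p.2 := (Nat.lt_pow_self (by norm_num)).le
      _ ≤ (p.1 + 1) * 4 ^ lev p.2 := Nat.le_mul_of_pos_left _ (by omega)
      _ ≤ X := h1
  · rw [Finset.mem_product, Finset.mem_range, Finset.mem_powerset]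
    refine ⟨?_, lev_le.mp le_rfl⟩
    rw [Nat.lt_iff_add_one_le, Nat.le_div_iff_mul_le (by positivity)]
    exact h1

lemma RR_compact : IsCompactOperator RR := by
  apply compact_of_sv RR _ rr_norm RR_apply
  intro ε hε
  obtain ⟨X, hX⟩ := exists_nat_gt (1 / ε)
  refine ⟨low X, fun p hp => ?_⟩
  have h1 := not_mem_low hp
  rw [Complex.norm_real, Real.norm_eq_abs, abs_of_pos (rr_pos p)]
  refine (rr_le_inv p).trans ?_
  rw [div_le_iff₀ (by linarith [one_le_lam p])]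
  have h2 : 1 < ε * X := by
    have := (div_lt_iff₀ hε).mp hX
    linarith
  nlinarith

lemma sv_RR_upper (k : ℕ) : sv RR k ≤ 2 / ((k : ℝ) + 1) := by
  apply sv_dg_upper RR _ rr_norm RR_apply (low (k / 2)) k
  · exact (card_low _).trans (by omega)
  · positivity
  · intro p hp
    have h1 := not_mem_low hp
    rw [Complex.norm_real, Real.norm_eq_abs, abs_of_pos (rr_pos p)]
    refine (rr_le_inv p).trans ?_
    rw [div_le_div_iff₀ (by linarith [one_le_lam p]) (by positivity)]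
    have h2 : ((k : ℝ) + 1) ≤ 2 * (((k / 2 : ℕ) : ℝ) + 1) := by
      have : k + 1 ≤ 2 * (k / 2 + 1) := by omega
      exact_mod_cast this
    linarith

lemma sv_RR_lower (k : ℕ) : 1 / ((k : ℝ) + 2) ≤ sv RR k := by
  apply sv_dg_lower RR _ RR_apply ((Finset.range (k + 1)).map
    ⟨fun j => ((j, ∅) : Ix), fun a b h => by simpa using h⟩) k (by simp)
  · positivity
  · intro p hp
    rw [Finset.mem_map] at hp
    obtain ⟨j, hj, rfl⟩ := hp
    rw [Finset.mem_range] at hj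
    rw [Complex.norm_real, Real.norm_eq_abs, abs_of_pos (rr_pos _)]
    refine le_trans ?_ (inv_le_rr _)
    have h1 : lam (((⟨fun j => ((j, ∅) : Ix), fun a b h => by simpa using h⟩ : ℕ ↪ Ix)) j)
        = (j : ℝ) + 1 := by
      change lam (j, ∅) = _
      simp [lam]
    rw [h1]
    apply one_div_le_one_div_of_le (by positivity)
    have : (j : ℝ) ≤ k := by exact_mod_cast Nat.lt_succ_iff.mp hj
    linarith

end Pool.Agent.H668R3.NcInt
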