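import Mathlib
import Pool.Agent.H668R3.NcInt.Ex1

/-! the example: the algebra -/

set_option autoImplicit false

open Filter Topology
open scoped InnerProductSpace ComplexOrder symmDiff

noncomputable section

namespace Pool.Agent.H668R3.NcInt

/-- shifting the second coordinate -/
def shift (t : Finset ℕ) : Ix ≃ Ix where
  toFun p := (p.1, p.2 ∆ t)
  invFun p := (p.1, p.2 ∆ t)
  left_inv p := by simp
  right_inv p := by simp

@[simp] lemma shift_apply (t : Finset ℕ) (p : Ix) : shift t p = (p.1, p.2 ∆ t) := rfl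

/-- the generators -/
def G (j : ℕ) (t : Finset ℕ) : L2 Ix →L[ℂ] L2 Ix :=
  wp (fun p => if p.1 = j then 1 else 0) (fun p => by split_ifs <;> simp) (shift t)

lemma G_apply (j : ℕ) (t : Finset ℕ) (x : L2 Ix) (p : Ix) :
    (G j t x) p = if p.1 = j then x (p.1, p.2 ∆ t) else 0 := by
  unfold G
  rw [wp_apply]
  split_ifs <;> simp

lemma G_mul_same (j : ℕ) (s t : Finset ℕ) : G j s * G j t = G j (s ∆ t) := by
  ext1 x
  apply l2_ext
  intro p
  change (G j s (G j t x)) p = _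
  rw [G_apply, G_apply, G_apply]
  split_ifs with h
  · rw [symmDiff_assoc]
  · rfl

lemma G_mul_ne {i j : ℕ} (h : i ≠ j) (s t : Finset ℕ) : G i s * G j t = 0 := by
  ext1 x
  apply l2_ext
  intro p
  change (G i s (G j t x)) p = (0 : L2 Ix) p
  rw [G_apply, G_apply, l2_zero]
  split_ifs with h1 h2
  · exact absurd (h1.symm.trans h2) h
  · rfl
  · rfl

lemma G_comm (i j : ℕ) (s t : Finset ℕ) : G i s * G j t = G j t * G i s := by
  by_cases h : i = j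
  · subst h
    rw [G_mul_same, G_mul_same, symmDiff_comm]
  · rw [G_mul_ne h, G_mul_ne (Ne.symm h)]

lemma G_star (j : ℕ) (t : Finset ℕ) : star (G j t) = G j t := by
  symm
  rw [ContinuousLinearMap.star_eq_adjoint, ContinuousLinearMap.eq_adjoint_iff]
  intro x y
  rw [l2_inner, l2_inner]
  rw [← (shift t).tsum_eq (fun p => (starRingEnd ℂ) (x p) * (G j t y) p)]
  congr 1
  ext p
  rw [G_apply, G_apply, shift_apply]
  simp only [symmDiff_symmDiff_cancel_right]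
  split_ifs with h
  · rfl
  · simp

/-- the set of generators -/
def gens : Set (L2 Ix →L[ℂ] L2 Ix) := Set.range (fun p : Ix => G p.1 p.2)

/-- the algebra -/
def AA : StarSubalgebra ℂ (L2 Ix →L[ℂ] L2 Ix) := StarAlgebra.adjoin ℂ gens

lemma gens_star : star gens = gens := by
  ext a
  constructor
  · rintro ⟨p, hp⟩
    refine ⟨p, ?_⟩
    have := congrArg star hp
    rw [star_star] at this
    rw [← this]
    exact (G_star _ _).symm
  · rintro ⟨p, rfl⟩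
    exact ⟨p, (G_star _ _).symm⟩

lemma AA_toSub : AA.toSubalgebra = Algebra.adjoin ℂ gens := by
  unfold AA
  rw [StarAlgebra.adjoin_toSubalgebra, gens_star, Set.union_self]

lemma G_mem (j : ℕ) (t : Finset ℕ) : G j t ∈ AA :=
  StarAlgebra.subset_adjoin ℂ _ ⟨(j, t), rfl⟩

lemma lev_symmDiff_le (s t : Finset ℕ) : lev (s ∆ t) ≤ max (lev s) (lev t) := by
  rw [lev_le]
  intro i hi
  rw [Finset.mem_symmDiff] at hi
  rw [Finset.mem_range, lt_max_iff]
  rcases hi with h | h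
  · left; exact Finset.mem_range.mp (lev_le.mp le_rfl h.1)
  · right; exact Finset.mem_range.mp (lev_le.mp le_rfl h.1)

lemma lam_diff (p : Ix) (t : Finset ℕ) :
    |lam p - lam (p.1, p.2 ∆ t)| ≤ ((p.1 : ℝ) + 1) * 4 ^ lev t := by
  have h1 : lam p - lam (p.1, p.2 ∆ t) = ((p.1 : ℝ) + 1) * (4 ^ lev p.2 - 4 ^ lev (p.2 ∆ t)) := by
    unfold lam; ring
  rw [h1, abs_mul, abs_of_nonneg (by positivity : (0:ℝ) ≤ (p.1 : ℝ) + 1)]
  apply mul_le_mul_of_nonneg_left _ (by positivity)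
  rcases le_or_gt (lev p.2) (lev t) with h | h
  · have h2 : lev (p.2 ∆ t) ≤ lev t := (lev_symmDiff_le _ _).trans (max_le h le_rfl)
    have h3 : (4 : ℝ) ^ lev p.2 ≤ 4 ^ lev t := pow_le_pow_right₀ (by norm_num) h
    have h4 : (4 : ℝ) ^ lev (p.2 ∆ t) ≤ 4 ^ lev t := pow_le_pow_right₀ (by norm_num) h2
    rw [abs_le]
    constructor
    · have : (0:ℝ) < 4 ^ lev p.2 := by positivity
      linarith
    · have : (0:ℝ) < 4 ^ lev (p.2 ∆ t) := by positivity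
      linarith
  · have h2 : lev (p.2 ∆ t) ≤ lev p.2 := (lev_symmDiff_le _ _).trans (max_le le_rfl h.le)
    have h3 : lev p.2 ≤ lev (p.2 ∆ t) := by
      have h4 := lev_symmDiff_le (p.2 ∆ t) t
      rw [symmDiff_symmDiff_cancel_right] at h4
      rcases le_max_iff.mp h4 with h5 | h5
      · exact h5
      · omega
    rw [le_antisymm h2 h3, sub_self, abs_zero]
    positivity

/-- the operators which leave the domain of `D` invariant and have a bounded commutator -/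
def Good (a : L2 Ix →L[ℂ] L2 Ix) : Prop :=
  ∃ C : ℝ, ∀ x : (Dg lam).domain, ∃ hx : a (x : L2 Ix) ∈ (Dg lam).domain,
    ‖Dg lam ⟨a (x : L2 Ix), hx⟩ - a (Dg lam x)‖ ≤ C * ‖(x : L2 Ix)‖

lemma good_G (j : ℕ) (t : Finset ℕ) : Good (G j t) := by
  refine ⟨((j : ℝ) + 1) * 4 ^ lev t, fun x => ?_⟩
  have hbd : ∀ p : Ix, ‖(lam p : ℂ) * (G j t x) p - (G j t (Dg lam x)) p‖ ≤
      ((j : ℝ) + 1) * 4 ^ lev t * ‖(x : L2 Ix) (p.1, p.2 ∆ t)‖ := by
    intro p
    rw [G_apply, G_apply]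
    split_ifs with h
    · rw [Dg_apply, ← sub_mul, norm_mul, ← Complex.ofReal_sub, Complex.norm_real, Real.norm_eq_abs]
      apply mul_le_mul_of_nonneg_right _ (norm_nonneg _)
      have := lam_diff p t
      rwa [h] at this ⊢
    · simp only [mul_zero, sub_zero, norm_zero]
      positivity
  have hs1 : Summable fun p : Ix => ‖(x : L2 Ix) (p.1, p.2 ∆ t)‖ ^ 2 :=
    ((shift t).summable_iff).mpr (l2_summable (x : L2 Ix))
  have hs2 : Summable fun p : Ix => ‖(lam p : ℂ) * (G j t x) p - (G j t (Dg lam x)) p‖ ^ 2 := by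
    refine Summable.of_nonneg_of_le (fun i => by positivity) (fun p => ?_)
      (hs1.mul_left ((((j : ℝ) + 1) * 4 ^ lev t) ^ 2))
    rw [← mul_pow]
    exact pow_le_pow_left₀ (norm_nonneg _) (hbd p) 2
  have hx : G j t (x : L2 Ix) ∈ (Dg lam).domain := by
    rw [mem_Dg]
    have := summable_add_sq hs2 (l2_summable (G j t (Dg lam x)))
    refine this.congr fun p => ?_
    rw [sub_add_cancel]
  refine ⟨hx, ?_⟩
  have h1 : ‖Dg lam ⟨G j t (x : L2 Ix), hx⟩ - G j t (Dg lam x)‖ ^ 2 ≤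
      (((j : ℝ) + 1) * 4 ^ lev t * ‖(x : L2 Ix)‖) ^ 2 := by
    rw [mul_pow, l2_norm_sq, l2_norm_sq, ← (shift t).tsum_eq (fun i => ‖(x : L2 Ix) i‖ ^ 2),
      ← tsum_mul_left]
    refine Summable.tsum_le_tsum (fun p => ?_) (l2_summable _)
      (hs1.mul_left ((((j : ℝ) + 1) * 4 ^ lev t) ^ 2))
    rw [← mul_pow]
    exact pow_le_pow_left₀ (norm_nonneg _) (hbd p) 2
  exact le_of_sq_le_sq h1 (by positivity)

lemma good_add {a b : L2 Ix →L[ℂ] L2 Ix} (ha : Good a) (hb : Good b) : Good (a + b) := by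
  obtain ⟨C₁, h₁⟩ := ha
  obtain ⟨C₂, h₂⟩ := hb
  refine ⟨C₁ + C₂, fun x => ?_⟩
  obtain ⟨hx₁, hn₁⟩ := h₁ x
  obtain ⟨hx₂, hn₂⟩ := h₂ x
  refine ⟨Submodule.add_mem _ hx₁ hx₂, ?_⟩
  have h : Dg lam ⟨(a + b) (x : L2 Ix), Submodule.add_mem _ hx₁ hx₂⟩ =
      Dg lam ⟨a (x : L2 Ix), hx₁⟩ + Dg lam ⟨b (x : L2 Ix), hx₂⟩ := by
    rw [← LinearPMap.map_add]
    rfl
  rw [h, add_apply]
  calc ‖Dg lam ⟨a (x : L2 Ix), hx₁⟩ + Dg lam ⟨b (x : L2 Ix), hx₂⟩ - (a (Dg lam x) + b (Dg lam x))‖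
      = ‖(Dg lam ⟨a (x : L2 Ix), hx₁⟩ - a (Dg lam x)) +
        (Dg lam ⟨b (x : L2 Ix), hx₂⟩ - b (Dg lam x))‖ := by congr 1; abel
    _ ≤ _ := norm_add_le _ _
    _ ≤ (C₁ + C₂) * ‖(x : L2 Ix)‖ := by rw [add_mul]; exact add_le_add hn₁ hn₂

lemma good_mul {a b : L2 Ix →L[ℂ] L2 Ix} (ha : Good a) (hb : Good b) : Good (a * b) := by
  obtain ⟨C₁, h₁⟩ := ha
  obtain ⟨C₂, h₂⟩ := hb
  refine ⟨|C₁| * ‖b‖ + ‖a‖ * C₂, fun x => ?_⟩
  obtain ⟨hx₂, hn₂⟩ := h₂ x
  obtain ⟨hx₁, hn₁⟩ := h₁ ⟨b (x : L2 Ix), hx₂⟩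
  refine ⟨hx₁, ?_⟩
  change ‖Dg lam ⟨a (b (x : L2 Ix)), hx₁⟩ - a (b (Dg lam x))‖ ≤ _
  calc ‖Dg lam ⟨a (b (x : L2 Ix)), hx₁⟩ - a (b (Dg lam x))‖
      = ‖(Dg lam ⟨a (b (x : L2 Ix)), hx₁⟩ - a (Dg lam ⟨b (x : L2 Ix), hx₂⟩)) +
        a (Dg lam ⟨b (x : L2 Ix), hx₂⟩ - b (Dg lam x))‖ := by
          congr 1; rw [map_sub]; abel
    _ ≤ ‖Dg lam ⟨a (b (x : L2 Ix)), hx₁⟩ - a (Dg lam ⟨b (x : L2 Ix), hx₂⟩)‖ +
        ‖a (Dg lam ⟨b (x : L2 Ix), hx₂⟩ - b (Dg lam x))‖ := norm_add_le _ _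
    _ ≤ C₁ * ‖b (x : L2 Ix)‖ + ‖a‖ * (C₂ * ‖(x : L2 Ix)‖) := by
          refine add_le_add hn₁ ?_
          exact (a.le_opNorm _).trans (mul_le_mul_of_nonneg_left hn₂ (norm_nonneg _))
    _ ≤ |C₁| * (‖b‖ * ‖(x : L2 Ix)‖) + ‖a‖ * (C₂ * ‖(x : L2 Ix)‖) := by
          refine add_le_add ?_ le_rfl
          exact mul_le_mul (le_abs_self _) (b.le_opNorm _) (norm_nonneg _) (abs_nonneg _)
    _ = _ := by ring

lemma good_algebraMap (c : ℂ) : Good (algebraMap ℂ (L2 Ix →L[ℂ] L2 Ix) c) := by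
  refine ⟨0, fun x => ?_⟩
  have h0 : (algebraMap ℂ (L2 Ix →L[ℂ] L2 Ix) c) (x : L2 Ix) = c • (x : L2 Ix) := rfl
  refine ⟨Submodule.smul_mem _ c x.2, ?_⟩
  have h : Dg lam ⟨(algebraMap ℂ (L2 Ix →L[ℂ] L2 Ix) c) (x : L2 Ix),
      Submodule.smul_mem _ c x.2⟩ = c • Dg lam x := by
    rw [← LinearPMap.map_smul]
    rfl
  rw [h]
  change ‖c • Dg lam x - c • Dg lam x‖ ≤ _
  simp

lemma good_AA : ∀ a ∈ AA, Good a := by
  intro a ha
  have ha' : a ∈ Algebra.adjoin ℂ gens := by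
    rw [← AA_toSub]; exact ha
  induction ha' using Algebra.adjoin_induction with
  | mem x hx => obtain ⟨p, rfl⟩ := hx; exact good_G _ _
  | algebraMap r => exact good_algebraMap r
  | add x y hx hy h1 h2 =>
    exact good_add (h1 (by have : x ∈ AA.toSubalgebra := by rw [AA_toSub]; exact hx
                           exact this))
      (h2 (by have : y ∈ AA.toSubalgebra := by rw [AA_toSub]; exact hy
              exact this))
  | mul x y hx hy h1 h2 =>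
    exact good_mul (h1 (by have : x ∈ AA.toSubalgebra := by rw [AA_toSub]; exact hx
                           exact this))
      (h2 (by have : y ∈ AA.toSubalgebra := by rw [AA_toSub]; exact hy
              exact this))

/-- the spectral triple -/
def ST : SpectralTriple (L2 Ix) where
  A := AA
  countably_generated := ⟨gens, Set.countable_range _, rfl⟩
  D := Dg lam
  selfAdjoint := Dg_selfAdjoint lam
  commutator_bounded := fun a ha => by
    obtain ⟨C, hC⟩ := good_AA a ha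
    refine ⟨C, ?_⟩
    rintro x y ⟨hx, rfl⟩
    obtain ⟨hx', hn⟩ := hC ⟨x, hx⟩
    exact ⟨_, ⟨hx', rfl⟩, hn⟩
  R := RR
  bracket := bracket_RR
  compact := RR_compact

end Pool.Agent.H668R3.NcInt
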