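import Mathlib
import Pool.Agent.H668R3.NcInt.Ex2

/-! the example: the bicommutant -/

set_option autoImplicit false

open Filter Topology
open scoped InnerProductSpace ComplexOrder symmDiff

noncomputable section

namespace Pool.Agent.H668R3.NcInt

/-- the commutant -/
def CC : Set (L2 Ix →L[ℂ] L2 Ix) := Set.centralizer (AA : Set (L2 Ix →L[ℂ] L2 Ix))

lemma G_e (j i : ℕ) (s t : Finset ℕ) :
    G j t (e ((i, s) : Ix)) = if i = j then e ((i, s ∆ t) : Ix) else 0 := by
  apply l2_ext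
  intro p
  rw [G_apply, e_apply]
  by_cases h : p.1 = j
  · rw [if_pos h]
    split_ifs with h1 h2 h2
    · rw [Prod.ext_iff] at h1
      have h1a : p.1 = i := h1.1
      have h1b : p.2 ∆ t = s := h1.2
      have : p = ((i, s ∆ t) : Ix) := by
        apply Prod.ext
        · exact h1a
        · change p.2 = s ∆ t
          rw [← h1b, symmDiff_symmDiff_cancel_right]
      rw [this, e_self]
    · rw [Prod.ext_iff] at h1
      exact absurd (h1.1.symm.trans h) h2
    · rw [e_ne]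
      intro h3
      apply h1
      rw [h3]; simp
    · rfl
  · rw [if_neg h]
    split_ifs with h2
    · rw [e_ne]
      rintro rfl
      exact h h2
    · rfl

lemma comm_G {T : L2 Ix →L[ℂ] L2 Ix} (hT : T ∈ CC) (j : ℕ) (t : Finset ℕ) (x : L2 Ix) :
    T (G j t x) = G j t (T x) := by
  have := hT (G j t) (G_mem j t)
  have h2 := congrArg (fun S : L2 Ix →L[ℂ] L2 Ix => S x) this
  exact h2.symm

lemma T_e {T : L2 Ix →L[ℂ] L2 Ix} (hT : T ∈ CC) (j : ℕ) (s : Finset ℕ) (p : Ix) :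
    (T (e ((j, s) : Ix))) p = if p.1 = j then (T (e ((j, ∅) : Ix))) (p.1, p.2 ∆ s) else 0 := by
  have h1 : G j s (e ((j, ∅) : Ix)) = e ((j, s) : Ix) := by
    rw [G_e, if_pos rfl]
    congr 1
    rw [Prod.mk.injEq]
    exact ⟨rfl, bot_symmDiff s⟩
  rw [← h1, comm_G hT, G_apply]

lemma T_apply_tsum (T : L2 Ix →L[ℂ] L2 Ix) (x : L2 Ix) (q : Ix) :
    (T x) q = ∑' p, x p * (T (e p)) q := by
  have h1 := (hasSum_e x).mapL T
  have h2 := h1.mapL (lp.evalCLM ℂ (fun _ : Ix => ℂ) 2 q)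
  have h3 : HasSum (fun p => x p * (T (e p)) q) ((T x) q) := by
    have h4 : (fun p => x p * (T (e p)) q) =
        fun p => (lp.evalCLM ℂ (fun _ : Ix => ℂ) 2 q) (T (x p • (e p : L2 Ix))) := by
      ext1 p
      rw [map_smul]
      rfl
    rw [h4]
    exact h2
  exact h3.tsum_eq.symm

/-- the commutant is commutative -/
lemma CC_comm {T S : L2 Ix →L[ℂ] L2 Ix} (hT : T ∈ CC) (hS : S ∈ CC) : T * S = S * T := by
  have key : ∀ {T S : L2 Ix →L[ℂ] L2 Ix}, T ∈ CC → S ∈ CC → ∀ j u,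
      (T (S (e ((j, ∅) : Ix)))) ((j, u) : Ix) =
        ∑' p : Ix, (if p.1 = j then (S (e ((j, ∅) : Ix))) p * (T (e ((j, ∅) : Ix))) (j, u ∆ p.2)
          else 0) := by
    intro T S hT hS j u
    rw [T_apply_tsum]
    congr 1
    ext p
    obtain ⟨i, s⟩ := p
    rw [T_e hT]
    by_cases h : i = j
    · subst h; simp
    · rw [if_neg (fun h' => h h'.symm), if_neg h, mul_zero]
  have main : ∀ j, T (S (e ((j, ∅) : Ix))) = S (T (e ((j, ∅) : Ix))) := by
    intro j
    apply l2_ext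
    rintro ⟨i, u⟩
    by_cases hij : i = j
    · subst hij
      rw [key hT hS, key hS hT]
      let σ : Ix ≃ Ix :=
        { toFun := fun p => (p.1, u ∆ p.2)
          invFun := fun p => (p.1, u ∆ p.2)
          left_inv := fun p => by simp
          right_inv := fun p => by simp }
      rw [← σ.tsum_eq]
      congr 1
      ext p
      change (if p.1 = i then (S (e ((i, ∅) : Ix))) (p.1, u ∆ p.2) *
          (T (e ((i, ∅) : Ix))) (i, u ∆ (u ∆ p.2)) else 0) = _
      rw [symmDiff_symmDiff_cancel_left]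
      split_ifs with h
      · obtain ⟨a, b⟩ := p
        simp only at h
        subst h
        rw [mul_comm]
      · rfl
    · have h0 : ∀ {T : L2 Ix →L[ℂ] L2 Ix}, T ∈ CC → ∀ x : L2 Ix, G j ∅ x = x →
          (T x) ((i, u) : Ix) = 0 := by
        intro T hT x hx
        rw [← hx, comm_G hT, G_apply, if_neg hij]
      have he : G j ∅ (e ((j, ∅) : Ix)) = e ((j, ∅) : Ix) := by
        rw [G_e, if_pos rfl]; congr 1
      rw [h0 hT _ (by rw [← comm_G hS, he]), h0 hS _ (by rw [← comm_G hT, he])]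
  have main2 : ∀ p : Ix, (T * S) (e p) = (S * T) (e p) := by
    rintro ⟨j, s⟩
    change T (S _) = S (T _)
    have h1 : G j s (e ((j, ∅) : Ix)) = e ((j, s) : Ix) := by
      rw [G_e, if_pos rfl]
      congr 1
      rw [Prod.mk.injEq]
      exact ⟨rfl, bot_symmDiff s⟩
    rw [← h1, comm_G hS, comm_G hT, comm_G hT, comm_G hS, main]
  ext1 x
  exact ((hasSum_e x).mapL (T * S)).unique (by
    have := (hasSum_e x).mapL (S * T)
    have h4 : (fun p => (T * S) (x p • (e p : L2 Ix))) = fun p => (S * T) (x p • (e p : L2 Ix)) := by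
      ext1 p
      rw [map_smul, map_smul, main2]
    rw [h4]
    exact this)

lemma AA_comm : ∀ a ∈ AA, ∀ b ∈ AA, a * b = b * a := by
  have h1 : ∀ a ∈ AA, a ∈ Algebra.adjoin ℂ gens := by
    intro a ha; rw [← AA_toSub]; exact ha
  have h2 : ∀ a ∈ Algebra.adjoin ℂ gens, ∀ b ∈ Algebra.adjoin ℂ gens, a * b = b * a := by
    intro a ha b hb
    have hc : ∀ a ∈ gens, ∀ b ∈ gens, a * b = b * a := by
      rintro _ ⟨p, rfl⟩ _ ⟨q, rfl⟩
      exact G_comm _ _ _ _
    have h3 := Algebra.isMulCommutative_adjoin ℂ hc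
    have := h3.is_comm.comm (⟨a, ha⟩ : Algebra.adjoin ℂ gens) ⟨b, hb⟩
    exact congrArg Subtype.val this
  exact fun a ha b hb => h2 a (h1 a ha) b (h1 b hb)

lemma bicomm_eq : ST.bicommutant = CC := by
  unfold SpectralTriple.bicommutant
  change Set.centralizer CC = CC
  apply Set.Subset.antisymm
  · exact Set.centralizer_subset (fun a ha => fun b hb => AA_comm b hb a ha)
  · intro T hT S hS
    exact CC_comm hS hT

lemma norm_T_e {T : L2 Ix →L[ℂ] L2 Ix} (hT : T ∈ CC) (j : ℕ) (s : Finset ℕ) :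
    ‖T (e ((j, s) : Ix))‖ = ‖T (e ((j, ∅) : Ix))‖ := by
  have h : ‖T (e ((j, s) : Ix))‖ ^ 2 = ‖T (e ((j, ∅) : Ix))‖ ^ 2 := by
    rw [l2_norm_sq, l2_norm_sq, ← (shift s).tsum_eq]
    congr 1
    ext p
    rw [T_e hT j s, shift_apply]
    by_cases h : p.1 = j
    · rw [if_pos h]
      simp only [symmDiff_symmDiff_cancel_right]
    · rw [if_neg h, T_e hT j ∅ p, if_neg h]
  exact (sq_eq_sq₀ (norm_nonneg _) (norm_nonneg _)).mp h

lemma eq_zero_of_e {T : L2 Ix →L[ℂ] L2 Ix} (h : ∀ p, T (e p) = 0) : T = 0 := by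
  ext1 x
  refine ((hasSum_e x).mapL T).unique ?_
  have h4 : (fun p => T (x p • (e p : L2 Ix))) = fun _ => 0 := by
    ext1 p
    rw [map_smul, h, smul_zero]
  rw [h4]
  exact hasSum_zero

/-- distinct indices -/
def en (j : ℕ) (n : ℕ) : Ix := (j, {n})

lemma en_inj (j : ℕ) : Function.Injective (en j) := by
  intro a b h
  unfold en at h
  simpa using h

lemma tendsto_coord (x : L2 Ix) (f : ℕ → Ix) (hf : Function.Injective f) :
    Tendsto (fun n => x (f n)) atTop (𝓝 0) := by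
  have h1 := (l2_summable x).comp_injective hf
  have h2 := h1.tendsto_atTop_zero
  have h3 : Tendsto (fun n => ‖x (f n)‖) atTop (𝓝 0) := by
    have := h2.sqrt
    simpa [Real.sqrt_sq] using this
  exact tendsto_zero_iff_norm_tendsto_zero.mpr h3

/-- the bicommutant contains no nonzero operator of finite rank -/
lemma no_finite_rank {T : L2 Ix →L[ℂ] L2 Ix} (hT : T ∈ CC)
    (hfin : FiniteDimensional ℂ (LinearMap.range T.toLinearMap)) : T = 0 := by
  apply eq_zero_of_e
  rintro ⟨j, s⟩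
  rw [← norm_eq_zero, norm_T_e hT]
  let V := LinearMap.range T.toLinearMap
  let b := stdOrthonormalBasis ℂ V
  have hn : ∀ n : ℕ, ‖T (e (en j n))‖ ^ 2 =
      ∑ i, ‖(T.adjoint (b i : L2 Ix)) (en j n)‖ ^ 2 := by
    intro n
    let y : V := ⟨T (e (en j n)), ⟨e (en j n), rfl⟩⟩
    have h1 := b.sum_sq_norm_inner_right y
    have h2 : ‖y‖ = ‖T (e (en j n))‖ := rfl
    rw [← h2, ← h1]
    refine Finset.sum_congr rfl fun i _ => ?_
    congr 1
    have h3 : ⟪b i, y⟫_ℂ = ⟪(b i : L2 Ix), T (e (en j n))⟫_ℂ := rfl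
    rw [h3, ← ContinuousLinearMap.adjoint_inner_left, ← inner_conj_symm, inner_e]
    simp
  have h1 : Tendsto (fun n => ‖T (e (en j n))‖ ^ 2) atTop (𝓝 0) := by
    have h2 : (fun n => ‖T (e (en j n))‖ ^ 2) =
      fun n => ∑ i, ‖(T.adjoint (b i : L2 Ix)) (en j n)‖ ^ 2 := funext hn
    rw [h2]
    have h3 : ∀ i, Tendsto (fun n => ‖(T.adjoint (b i : L2 Ix)) (en j n)‖ ^ 2) atTop (𝓝 0) := by
      intro i
      have := (tendsto_coord (T.adjoint (b i : L2 Ix)) (en j) (en_inj j)).norm.pow 2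
      simpa using this
    have := tendsto_finsetSum Finset.univ (fun i _ => h3 i)
    simpa using this
  have h2 : (fun n => ‖T (e (en j n))‖ ^ 2) = fun _ => ‖T (e ((j, ∅) : Ix))‖ ^ 2 := by
    ext n
    unfold en
    rw [norm_T_e hT]
  rw [h2] at h1
  have h3 := tendsto_nhds_unique h1 tendsto_const_nhds
  exact (pow_eq_zero_iff two_ne_zero).mp h3.symm

end Pool.Agent.H668R3.NcInt
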