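import Mathlib
import Pool.Agent.H668R3.NcInt.Ex3

/-! the example: the bicommutant has no minimal projections; the Dixmier trace -/

set_option autoImplicit false

open Filter Topology
open scoped InnerProductSpace ComplexOrder symmDiff

noncomputable section

namespace Pool.Agent.H668R3.NcInt

lemma CC_mul {S T : L2 Ix →L[ℂ] L2 Ix} (hS : S ∈ CC) (hT : T ∈ CC) : S * T ∈ CC :=
  Set.mul_mem_centralizer hS hT

lemma AA_sub_CC {a : L2 Ix →L[ℂ] L2 Ix} (ha : a ∈ AA) : a ∈ CC :=
  fun b hb => AA_comm b hb a ha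

/-- the projections `(G_{j,∅} + G_{j,{n}})/2` -/
def EE (j n : ℕ) : L2 Ix →L[ℂ] L2 Ix := (1 / 2 : ℂ) • (G j ∅ + G j {n})

lemma EE_mem (j n : ℕ) : EE j n ∈ AA :=
  SMulMemClass.smul_mem _ (add_mem (G_mem _ _) (G_mem _ _))

lemma EE_proj (j n : ℕ) : IsStarProjection (EE j n) := by
  constructor
  · unfold EE IsIdempotentElem
    rw [smul_mul_smul_comm, add_mul, mul_add, mul_add, G_mul_same, G_mul_same, G_mul_same,
      G_mul_same]
    have h1 : (∅ : Finset ℕ) ∆ ∅ = ∅ := by simp
    have h2 : (∅ : Finset ℕ) ∆ {n} = {n} := bot_symmDiff _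
    have h3 : ({n} : Finset ℕ) ∆ ∅ = {n} := symmDiff_bot _
    have h4 : ({n} : Finset ℕ) ∆ {n} = ∅ := symmDiff_self _
    rw [h1, h2, h3, h4]
    module
  · unfold EE
    rw [IsSelfAdjoint, star_smul, star_add, G_star, G_star]
    simp

/-- the bicommutant has no minimal projections -/
lemma no_minimal {P : L2 Ix →L[ℂ] L2 Ix} (hP : P ∈ CC) (hp : IsStarProjection P) (h0 : P ≠ 0) :
    ∃ Q ∈ CC, IsStarProjection Q ∧ Q * P = Q ∧ Q ≠ 0 ∧ Q ≠ P := by
  by_contra hcon
  push Not at hcon
  apply h0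
  apply eq_zero_of_e
  rintro ⟨j, s₀⟩
  rw [← norm_eq_zero, norm_T_e hP, norm_eq_zero]
  set v := P (e ((j, ∅) : Ix)) with hv
  have hPP : P * P = P := hp.isIdempotentElem
  have hGv : G j ∅ v = v := by
    rw [hv, ← comm_G hP, G_e, if_pos rfl]; congr 1
  have key : ∀ n, G j {n} v = v ∨ G j {n} v = -v := by
    intro n
    have hQ : EE j n * P ∈ CC := CC_mul (AA_sub_CC (EE_mem j n)) hP
    have hc : EE j n * P = P * EE j n := hP (EE j n) (EE_mem j n)
    have hQp : IsStarProjection (EE j n * P) := by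
      constructor
      · unfold IsIdempotentElem
        calc EE j n * P * (EE j n * P) = EE j n * (P * EE j n) * P := by noncomm_ring
          _ = (EE j n * EE j n) * (P * P) := by rw [← hc]; noncomm_ring
          _ = EE j n * P := by rw [(EE_proj j n).isIdempotentElem, hPP]
      · rw [IsSelfAdjoint, star_mul, hp.isSelfAdjoint.star_eq, (EE_proj j n).isSelfAdjoint.star_eq, hc]
    have hQP : EE j n * P * P = EE j n * P := by rw [mul_assoc, hPP]
    have hE : (EE j n * P) (e ((j, ∅) : Ix)) = (1 / 2 : ℂ) • (v + G j {n} v) := by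
      change EE j n v = _
      unfold EE
      change (1 / 2 : ℂ) • (G j ∅ v + G j {n} v) = _
      rw [hGv]
    by_cases hz : EE j n * P = 0
    · right
      rw [hz] at hE
      have h1 : (0 : L2 Ix) = (1 / 2 : ℂ) • (v + G j {n} v) := hE
      have h2 : v + G j {n} v = 0 := by
        have h3 := congrArg (fun y : L2 Ix => (2 : ℂ) • y) h1
        simp only [smul_zero, smul_smul] at h3
        rw [show (2 : ℂ) * (1 / 2) = 1 by norm_num, one_smul] at h3
        exact h3.symm
      exact (neg_eq_of_add_eq_zero_right h2).symm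
    · left
      have h1 := hcon _ hQ hQp hQP hz
      rw [h1] at hE
      have h2 : v = (1 / 2 : ℂ) • (v + G j {n} v) := hE
      have h3 := congrArg (fun y : L2 Ix => (2 : ℂ) • y) h2
      simp only [smul_smul] at h3
      rw [show (2 : ℂ) * (1 / 2) = 1 by norm_num, one_smul, two_smul] at h3
      exact (add_left_cancel h3).symm
  apply l2_ext
  rintro ⟨i, s⟩
  rw [l2_zero]
  by_cases hij : i = j
  · subst hij
    have h1 : ∀ n, ‖v ((i, s ∆ {n}) : Ix)‖ = ‖v ((i, s) : Ix)‖ := by
      intro n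
      have h2 : (G i {n} v) ((i, s) : Ix) = v ((i, s ∆ {n}) : Ix) := by
        rw [G_apply, if_pos rfl]
      rw [← h2]
      rcases key n with h | h
      · rw [h]
      · rw [h]
        change ‖-(v ((i, s) : Ix))‖ = _
        rw [norm_neg]
    have h3 := tendsto_coord v (fun n => ((i, s ∆ {n}) : Ix)) (by
      intro a b hab
      have : s ∆ {a} = s ∆ {b} := congrArg Prod.snd hab
      have := symmDiff_right_injective s this
      simpa using this)
    have h4 := h3.norm
    have h5 : (fun n => ‖v ((i, s ∆ {n}) : Ix)‖) = fun _ => ‖v ((i, s) : Ix)‖ := funext h1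
    rw [h5, norm_zero] at h4
    have h6 := tendsto_nhds_unique h4 tendsto_const_nhds
    exact norm_eq_zero.mp h6.symm
  · rw [← hGv, G_apply, if_neg hij]

/-! ### the increasing sequence of projections -/

/-- the projection onto the first `m` blocks -/
def Sm (m : ℕ) : L2 Ix →L[ℂ] L2 Ix :=
  dg (fun p => if p.1 < m then 1 else 0) (fun p => by split_ifs <;> simp)

lemma Sm_apply (m : ℕ) (x : L2 Ix) (p : Ix) : (Sm m x) p = if p.1 < m then x p else 0 := by
  unfold Sm
  rw [dg_apply]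
  split_ifs <;> simp

lemma Sm_mem (m : ℕ) : Sm m ∈ AA := by
  induction m with
  | zero =>
    have : Sm 0 = 0 := by
      ext1 x; apply l2_ext; intro p; rw [Sm_apply, if_neg (by omega)]; rfl
    rw [this]; exact zero_mem _
  | succ m ih =>
    have : Sm (m + 1) = Sm m + G m ∅ := by
      ext1 x
      apply l2_ext
      intro p
      change (Sm (m + 1) x) p = (Sm m x) p + (G m ∅ x) p
      rw [Sm_apply, Sm_apply, G_apply]
      have h3 : p.2 ∆ (∅ : Finset ℕ) = p.2 := symmDiff_bot _
      rw [h3]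
      by_cases h1 : p.1 < m
      · rw [if_pos (by omega), if_pos h1, if_neg (by omega), add_zero]
      · by_cases h2 : p.1 = m
        · rw [if_pos (by omega), if_neg h1, if_pos h2, zero_add]
        · rw [if_neg (by omega), if_neg h1, if_neg h2, add_zero]
    rw [this]
    exact add_mem ih (G_mem _ _)

lemma nonneg_of (T : L2 Ix →L[ℂ] L2 Ix) (r : Ix → ℝ) (hr : ∀ i, 0 ≤ r i) (hr1 : ∀ i, r i ≤ 1)
    (hT : ∀ x p, (T x) p = ((r p : ℝ) : ℂ) * x p) : 0 ≤ T := by
  have hc : ∀ i, ‖((r i : ℝ) : ℂ)‖ ≤ 1 := by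
    intro i
    rw [Complex.norm_real, Real.norm_eq_abs, abs_of_nonneg (hr i)]
    exact hr1 i
  have h1 : T = dg (fun i => ((r i : ℝ) : ℂ)) hc := by
    ext1 x; apply l2_ext; intro p; rw [hT, dg_apply]
  rw [h1, ContinuousLinearMap.nonneg_iff_isPositive]
  exact dg_isPositive r hr hc

lemma Sm_nonneg (m : ℕ) : 0 ≤ Sm m := by
  apply nonneg_of _ (fun p => if p.1 < m then 1 else 0)
  · intro i; split_ifs <;> norm_num
  · intro i; split_ifs <;> norm_num
  · intro x p
    rw [Sm_apply]
    split_ifs <;> simp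

lemma Sm_mono : Monotone Sm := by
  intro m n hmn
  rw [← sub_nonneg]
  apply nonneg_of _ (fun p => if m ≤ p.1 ∧ p.1 < n then 1 else 0)
  · intro i; split_ifs <;> norm_num
  · intro i; split_ifs <;> norm_num
  · intro x p
    change (Sm n x) p - (Sm m x) p = _
    rw [Sm_apply, Sm_apply]
    by_cases h1 : p.1 < m
    · rw [if_pos (by omega), if_pos h1, if_neg (by omega)]; simp
    · by_cases h2 : p.1 < n
      · rw [if_pos h2, if_neg h1, if_pos ⟨by omega, h2⟩]; simp
      · rw [if_neg h2, if_neg h1, if_neg (by omega)]; simp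

lemma Sm_norm (m : ℕ) : ‖Sm m‖ ≤ 1 := by
  unfold Sm dg; exact wp_norm_le _ (fun p => by split_ifs <;> simp) _

lemma Sm_tendsto (x : L2 Ix) : Tendsto (fun m => Sm m x) atTop (𝓝 x) := by
  rw [Metric.tendsto_atTop]
  intro ε hε
  have h1 := hasSum_e x
  have h2 : x ∈ closure ((Submodule.span ℂ (Set.range (fun p : Ix => (e p : L2 Ix)))) : Set (L2 Ix)) := by
    refine mem_closure_of_tendsto h1 (Filter.Eventually.of_forall fun s => ?_)
    exact Submodule.sum_mem _ fun i _ => Submodule.smul_mem _ _ (Submodule.subset_span ⟨i, rfl⟩)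
  rw [Metric.mem_closure_iff] at h2
  obtain ⟨y, hy, hxy⟩ := h2 (ε / 2) (by linarith)
  have h3 : ∃ M, ∀ m ≥ M, Sm m y = y := by
    refine Submodule.span_induction (p := fun (y : L2 Ix) _ => ∃ M, ∀ m ≥ M, Sm m y = y)
      ?_ ?_ ?_ ?_ hy
    · rintro _ ⟨p, rfl⟩
      refine ⟨p.1 + 1, fun m hm => ?_⟩
      apply l2_ext
      intro q
      rw [Sm_apply, e_apply]
      by_cases h : q = p
      · rw [if_pos h, if_pos (by rw [h]; omega)]
      · rw [if_neg h]; simp
    · exact ⟨0, fun m _ => map_zero _⟩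
    · rintro y z _ _ ⟨M, hM⟩ ⟨M', hM'⟩
      exact ⟨max M M', fun m hm => by
        rw [map_add, hM m (le_trans (le_max_left _ _) hm), hM' m (le_trans (le_max_right _ _) hm)]⟩
    · rintro c y _ ⟨M, hM⟩
      exact ⟨M, fun m hm => by rw [map_smul, hM m hm]⟩
  obtain ⟨M, hM⟩ := h3
  refine ⟨M, fun m hm => ?_⟩
  rw [dist_eq_norm] at hxy ⊢
  have h4 : Sm m x - x = Sm m (x - y) - (x - y) := by
    rw [map_sub, hM m hm]; abel
  rw [h4]
  have h5 : ‖Sm m (x - y)‖ ≤ ‖x - y‖ := by
    have := (Sm m).le_opNorm (x - y)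
    have h6 := Sm_norm m
    nlinarith [norm_nonneg (x - y)]
  calc ‖Sm m (x - y) - (x - y)‖ ≤ ‖Sm m (x - y)‖ + ‖x - y‖ := norm_sub_le _ _
    _ < ε := by linarith

end Pool.Agent.H668R3.NcInt
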