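import Mathlib
import Pool.Agent.H668R3.NcInt.Ex4

/-! the example: the Dixmier trace -/

set_option autoImplicit false

open Filter Topology
open scoped InnerProductSpace ComplexOrder symmDiff

noncomputable section

namespace Pool.Agent.H668R3.NcInt

section general
variable {H : Type} [NormedAddCommGroup H] [InnerProductSpace ℂ H] [CompleteSpace H]

omit [CompleteSpace H] in
lemma sv_zero (k : ℕ) : sv (0 : H →L[ℂ] H) k = 0 := by
  apply le_antisymm _ (sv_nonneg _ _)
  have := sv_le (0 : H →L[ℂ] H) 0 k (rankLE_zero k)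
  simpa using this

omit [CompleteSpace H] in
lemma avg_zero : avg (0 : H →L[ℂ] H) = fun _ => 0 := by
  ext i
  unfold avg
  simp [sv_zero]

lemma dixmier_of_nonneg (ω : (ℕ → ℝ) → ℝ) (hω : IsDilationLimit ω) (T : H →L[ℂ] H) (hT : 0 ≤ T) :
    dixmier ω T = ((ω (avg T) : ℝ) : ℂ) := by
  have hsa : IsSelfAdjoint T := hT.isSelfAdjoint
  have h1 : reP T = T := by
    unfold reP adj
    rw [hsa.star_eq, ← two_smul ℂ T, smul_smul]
    norm_num
  have h2 : imP T = 0 := by
    unfold imP reP adj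
    rw [star_smul, hsa.star_eq, ← add_smul]
    simp
  have h3 : posP T = T := by
    unfold posP
    have : cfc (fun x : ℝ => max x 0) T = cfc (fun x : ℝ => x) T := by
      apply cfc_congr
      intro x hx
      exact max_eq_left (spectrum_nonneg_of_nonneg hT hx)
    rw [this]
    exact cfc_id' ℝ T hsa
  have h4 : negP T = 0 := by
    unfold negP
    have : cfc (fun x : ℝ => max (-x) 0) T = cfc (fun _ : ℝ => (0:ℝ)) T := by
      apply cfc_congr
      intro x hx
      exact max_eq_right (neg_nonpos.mpr (spectrum_nonneg_of_nonneg hT hx))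
    rw [this]
    exact cfc_const_zero ℝ T
  have h5 : posP (0 : H →L[ℂ] H) = 0 := by
    unfold posP
    rw [cfc_apply_zero]
    simp
  have h6 : negP (0 : H →L[ℂ] H) = 0 := by
    unfold negP
    rw [cfc_apply_zero]
    simp
  have h0 : ω (fun _ => 0) = 0 := hω.limit _ 0 tendsto_const_nhds
  unfold dixmier
  rw [h1, h2, h3, h4, h5, h6, avg_zero, h0]
  simp

lemma bracketPow_one (T : SpectralTriple H) : T.bracketPow 1 = T.R := by
  unfold SpectralTriple.bracketPow
  simp only [Real.rpow_one]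
  exact cfc_id' ℝ T.R T.bracket.1.isSelfAdjoint

end general

lemma ST_pow : ST.bracketPow 1 = RR := bracketPow_one ST

/-- the operator `S_m R` -/
lemma SmRR_apply (m : ℕ) (x : L2 Ix) (p : Ix) :
    ((Sm m * RR) x) p = (((if p.1 < m then rr p else 0 : ℝ)) : ℂ) * x p := by
  change (Sm m (RR x)) p = _
  rw [Sm_apply, RR_apply]
  split_ifs <;> simp

lemma SmRR_nonneg (m : ℕ) : 0 ≤ Sm m * RR := by
  apply nonneg_of _ (fun p => if p.1 < m then rr p else 0)
  · intro i
    split_ifs
    · exact (rr_pos i).le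
    · exact le_rfl
  · intro i
    split_ifs
    · exact rr_le_one i
    · norm_num
  · exact SmRR_apply m

lemma sv_SmRR (m k : ℕ) : sv (Sm m * RR) k ≤ ((m : ℝ) + 1) ^ 2 * (1 / ((k : ℝ) + 1) ^ 2) := by
  have hc : ∀ p : Ix, ‖(((if p.1 < m then rr p else 0 : ℝ)) : ℂ)‖ ≤ 1 := by
    intro p
    rw [Complex.norm_real, Real.norm_eq_abs]
    split_ifs
    · rw [abs_of_pos (rr_pos p)]; exact rr_le_one p
    · simp
  rcases lt_or_ge k (m + 1) with hk | hk
  · -- small k
    have h1 : sv (Sm m * RR) k ≤ 1 := by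
      apply sv_dg_upper _ _ hc (SmRR_apply m) ∅ k (by simp) 1 zero_le_one
      intro p _
      exact hc p
    refine h1.trans ?_
    rw [mul_one_div, le_div_iff₀ (by positivity), one_mul]
    have : (k : ℝ) + 1 ≤ (m : ℝ) + 1 := by
      have : k ≤ m := by omega
      have : (k : ℝ) ≤ m := by exact_mod_cast this
      linarith
    exact pow_le_pow_left₀ (by positivity) this 2
  · set M := m + 1 with hM
    set L := Nat.log 2 (k / M) with hL
    have hMpos : 0 < M := by omega
    have h1 : 2 ^ L ≤ k / M := Nat.pow_log_le_self 2 (Nat.pos_iff_ne_zero.mp (Nat.div_pos hk hMpos))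
    have h2 : k / M < 2 ^ (L + 1) := Nat.lt_pow_succ_log_self (by norm_num) _
    have h3 : M * 2 ^ L ≤ k := by
      calc M * 2 ^ L ≤ M * (k / M) := Nat.mul_le_mul_left _ h1
        _ ≤ k := Nat.mul_div_le _ _
    have h4 : k < 2 ^ (L + 1) * M := (Nat.div_lt_iff_lt_mul hMpos).mp h2
    have h5 : sv (Sm m * RR) k ≤ 1 / (4 : ℝ) ^ (L + 1) := by
      apply sv_dg_upper _ _ hc (SmRR_apply m) ((Finset.range M) ×ˢ (Finset.range L).powerset) k
      · rw [Finset.card_product, Finset.card_range, Finset.card_powerset, Finset.card_range]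
        exact h3
      · positivity
      · intro p hp
        rw [Complex.norm_real, Real.norm_eq_abs]
        split_ifs with hpm
        · rw [abs_of_pos (rr_pos p)]
          refine (rr_le_inv p).trans ?_
          apply one_div_le_one_div_of_le (by positivity)
          have h6 : ¬ lev p.2 ≤ L := by
            intro h
            apply hp
            rw [Finset.mem_product, Finset.mem_range, Finset.mem_powerset]
            exact ⟨by omega, lev_le.mp h⟩
          have h7 : (4 : ℝ) ^ (L + 1) ≤ 4 ^ lev p.2 := pow_le_pow_right₀ (by norm_num) (by omega)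
          unfold lam
          nlinarith [(Nat.cast_nonneg p.1 : (0:ℝ) ≤ p.1), pow_pos (by norm_num : (0:ℝ) < 4) (lev p.2)]
        · rw [abs_zero]; positivity
    refine h5.trans ?_
    have h6 : (k : ℝ) + 1 ≤ 2 ^ (L + 1) * ((m : ℝ) + 1) := by
      have : k + 1 ≤ 2 ^ (L + 1) * M := h4
      have : ((k + 1 : ℕ) : ℝ) ≤ ((2 ^ (L + 1) * M : ℕ) : ℝ) := by exact_mod_cast this
      push_cast [hM] at this
      exact this
    rw [mul_one_div, div_le_div_iff₀ (by positivity) (by positivity), one_mul]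
    calc ((k : ℝ) + 1) ^ 2 ≤ (2 ^ (L + 1) * ((m : ℝ) + 1)) ^ 2 :=
          pow_le_pow_left₀ (by positivity) h6 2
      _ = ((m : ℝ) + 1) ^ 2 * 4 ^ (L + 1) := by
          rw [mul_pow, ← pow_mul, mul_comm (L + 1) 2, pow_mul]; norm_num; ring

lemma summable_sq : Summable fun k : ℕ => 1 / ((k : ℝ) + 1) ^ 2 := by
  have h := (summable_nat_add_iff 1).mpr (Real.summable_one_div_nat_pow.mpr (le_refl 2))
  refine h.congr fun k => ?_
  push_cast; rfl

lemma log_tendsto : Tendsto (fun i : ℕ => Real.log (1 + ((i : ℝ) + 1))) atTop atTop := by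
  apply Real.tendsto_log_atTop.comp
  apply tendsto_atTop_add_const_left
  apply tendsto_atTop_add_const_right
  exact tendsto_natCast_atTop_atTop

lemma log_pos' (i : ℕ) : 0 < Real.log (1 + ((i : ℝ) + 1)) := by
  apply Real.log_pos
  have : (0:ℝ) ≤ i := Nat.cast_nonneg i
  linarith

lemma avg_SmRR (m : ℕ) : Tendsto (avg (Sm m * RR)) atTop (𝓝 0) := by
  set C := ((m : ℝ) + 1) ^ 2 * ∑' k : ℕ, 1 / ((k : ℝ) + 1) ^ 2 with hC
  have h1 : ∀ i, avg (Sm m * RR) i ≤ C / Real.log (1 + ((i : ℝ) + 1)) := by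
    intro i
    unfold avg
    apply div_le_div_of_nonneg_right _ (log_pos' i).le
    calc ∑ k ∈ Finset.range (i + 1), sv (Sm m * RR) k
        ≤ ∑ k ∈ Finset.range (i + 1), ((m : ℝ) + 1) ^ 2 * (1 / ((k : ℝ) + 1) ^ 2) :=
          Finset.sum_le_sum fun k _ => sv_SmRR m k
      _ ≤ C := by
          rw [← Finset.mul_sum, hC]
          apply mul_le_mul_of_nonneg_left _ (by positivity)
          exact summable_sq.sum_le_tsum _ (fun _ _ => by positivity)
  have h0 : ∀ i, 0 ≤ avg (Sm m * RR) i := by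
    intro i
    unfold avg
    exact div_nonneg (Finset.sum_nonneg fun k _ => sv_nonneg _ _) (log_pos' i).le
  exact squeeze_zero h0 h1 (log_tendsto.const_div_atTop C)

lemma log_le_sum (n : ℕ) : Real.log ((n : ℝ) + 2) - Real.log 2 ≤
    ∑ k ∈ Finset.range n, 1 / ((k : ℝ) + 2) := by
  induction n with
  | zero => simp
  | succ n ih =>
    rw [Finset.sum_range_succ]
    have h1 : Real.log (((n + 1 : ℕ) : ℝ) + 2) - Real.log ((n : ℝ) + 2) ≤ 1 / ((n : ℝ) + 2) := by
      rw [← Real.log_div (by positivity) (by positivity)]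
      refine (Real.log_le_sub_one_of_pos (by positivity)).trans (le_of_eq ?_)
      push_cast
      field_simp
      ring
    linarith

lemma sum_le_log (n : ℕ) : ∑ k ∈ Finset.range n, 1 / ((k : ℝ) + 2) ≤ Real.log ((n : ℝ) + 1) := by
  induction n with
  | zero => simp
  | succ n ih =>
    rw [Finset.sum_range_succ]
    have h1 : 1 / ((n : ℝ) + 2) ≤ Real.log (((n + 1 : ℕ) : ℝ) + 1) - Real.log ((n : ℝ) + 1) := by
      rw [← Real.log_div (by positivity) (by positivity)]
      refine le_trans (le_of_eq ?_) (Real.one_sub_inv_le_log_of_pos (by positivity))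
      push_cast
      field_simp
      ring
    linarith

lemma avg_RR_upper (i : ℕ) : avg RR i ≤ 4 := by
  unfold avg
  rw [div_le_iff₀ (log_pos' i)]
  calc ∑ k ∈ Finset.range (i + 1), sv RR k
      ≤ ∑ k ∈ Finset.range (i + 1), 4 * (1 / ((k : ℝ) + 2)) := by
        refine Finset.sum_le_sum fun k _ => (sv_RR_upper k).trans ?_
        rw [mul_one_div, div_le_div_iff₀ (by positivity) (by positivity)]
        have : (0:ℝ) ≤ k := Nat.cast_nonneg k
        linarith
    _ = 4 * ∑ k ∈ Finset.range (i + 1), 1 / ((k : ℝ) + 2) := by rw [Finset.mul_sum]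
    _ ≤ 4 * Real.log (1 + ((i : ℝ) + 1)) := by
        have := sum_le_log (i + 1)
        push_cast at this
        rw [add_comm 1 ((i : ℝ) + 1)]
        linarith

lemma avg_RR_nonneg (i : ℕ) : 0 ≤ avg RR i := by
  unfold avg
  exact div_nonneg (Finset.sum_nonneg fun k _ => sv_nonneg _ _) (log_pos' i).le

lemma avg_RR_lower (i : ℕ) : 1 - Real.log 2 / Real.log (1 + ((i : ℝ) + 1)) ≤ avg RR i := by
  unfold avg
  have h0 := log_pos' i
  rw [le_div_iff₀ h0, sub_mul, one_mul, div_mul_cancel₀ _ h0.ne']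
  have h1 := log_le_sum (i + 1)
  have h2 : ∑ k ∈ Finset.range (i + 1), 1 / ((k : ℝ) + 2) ≤ ∑ k ∈ Finset.range (i + 1), sv RR k :=
    Finset.sum_le_sum fun k _ => sv_RR_lower k
  have h3 : Real.log (1 + ((i : ℝ) + 1)) ≤ Real.log (((i + 1 : ℕ) : ℝ) + 2) := by
    apply Real.log_le_log (by positivity)
    push_cast; linarith
  linarith

lemma bdd_avg_RR : Bdd (avg RR) :=
  ⟨4, fun i => by rw [abs_of_nonneg (avg_RR_nonneg i)]; exact avg_RR_upper i⟩

lemma one_le_omega (ω : (ℕ → ℝ) → ℝ) (hω : IsDilationLimit ω) : 1 ≤ ω (avg RR) := by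
  set y : ℕ → ℝ := fun i => 1 - Real.log 2 / Real.log (1 + ((i : ℝ) + 1)) with hy
  have hlim : Tendsto y atTop (𝓝 1) := by
    have := (log_tendsto.const_div_atTop (Real.log 2)).const_sub 1
    simpa using this
  have hby : Bdd y := by
    obtain ⟨C, hC⟩ := hlim.abs.bddAbove_range
    exact ⟨C, fun n => hC ⟨n, rfl⟩⟩
  have h1 : ω y = 1 := hω.limit y 1 hlim
  have h2 : Bdd (fun n => (-1) * y n) := by
    obtain ⟨C, hC⟩ := hby
    exact ⟨C, fun n => by rw [abs_mul]; simpa using hC n⟩
  have h3 := hω.add _ _ bdd_avg_RR h2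
  rw [hω.smul (-1) y hby, h1] at h3
  have h4 : 0 ≤ ω (fun n => avg RR n + (-1) * y n) := by
    apply hω.nonneg
    · obtain ⟨C, hC⟩ := bdd_avg_RR
      obtain ⟨C', hC'⟩ := h2
      exact ⟨C + C', fun n => (abs_add_le _ _).trans (add_le_add (hC n) (hC' n))⟩
    · intro n
      have := avg_RR_lower n
      simp only [hy]
      linarith
  linarith

lemma Phi_Sm (ω : (ℕ → ℝ) → ℝ) (hω : IsDilationLimit ω) (m : ℕ) : ST.Phi 1 ω (Sm m) = 0 := by
  unfold SpectralTriple.Phi
  rw [ST_pow, dixmier_of_nonneg ω hω _ (SmRR_nonneg m), hω.limit _ 0 (avg_SmRR m)]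
  simp

lemma RR_nonneg : 0 ≤ RR := by
  rw [ContinuousLinearMap.nonneg_iff_isPositive]
  exact RR_isPositive

lemma Phi_one (ω : (ℕ → ℝ) → ℝ) (hω : IsDilationLimit ω) :
    ST.Phi 1 ω 1 = ((ω (avg RR) : ℝ) : ℂ) := by
  unfold SpectralTriple.Phi
  rw [ST_pow, one_mul, dixmier_of_nonneg ω hω _ RR_nonneg]

lemma not_normal (ω : (ℕ → ℝ) → ℝ) (hω : IsDilationLimit ω) : ¬ ST.PhiNormal 1 ω := by
  intro h
  have h1 := h ℕ Sm (fun m => by rw [bicomm_eq]; exact AA_sub_CC (Sm_mem m)) 1
    (by rw [bicomm_eq]; exact AA_sub_CC (one_mem _))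
    ⟨fun m => by rw [← ContinuousLinearMap.nonneg_iff_isPositive]; exact Sm_nonneg m,
      fun m n hmn => by
        rw [← ContinuousLinearMap.nonneg_iff_isPositive, sub_nonneg]; exact Sm_mono hmn,
      Sm_tendsto⟩
  have h2 : (ST.Phi 1 ω 1).re ≤ 0 := by
    apply h1.2
    rintro _ ⟨m, rfl⟩
    change (ST.Phi 1 ω (Sm m)).re ≤ 0
    rw [Phi_Sm ω hω]
    simp
  rw [Phi_one ω hω, Complex.ofReal_re] at h2
  have := one_le_omega ω hω
  linarith

lemma memM1 : ST.PowMemM1inf 1 := by
  unfold SpectralTriple.PowMemM1inf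
  rw [ST_pow]
  exact ⟨RR_compact, 4, avg_RR_upper⟩

lemma isDim : ST.IsDim 1 := by
  constructor
  · intro p hp
    change Summable fun k => sv RR k ^ p
    have h1 : Summable fun k : ℕ => 2 ^ p * (1 / ((k : ℝ) + 1) ^ p) := by
      apply Summable.mul_left
      have := (summable_nat_add_iff 1).mpr (Real.summable_one_div_nat_rpow.mpr hp)
      refine this.congr fun k => ?_
      push_cast; rfl
    refine Summable.of_nonneg_of_le (fun k => Real.rpow_nonneg (sv_nonneg _ _) _) (fun k => ?_) h1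
    calc sv RR k ^ p ≤ (2 / ((k : ℝ) + 1)) ^ p :=
          Real.rpow_le_rpow (sv_nonneg _ _) (sv_RR_upper k) (by linarith)
      _ = 2 ^ p * (1 / ((k : ℝ) + 1) ^ p) := by
          rw [Real.div_rpow (by norm_num) (by positivity), mul_one_div]
  · intro q hq
    by_contra hlt
    push Not at hlt
    have h1 := hq 1 hlt
    have h2 : Summable fun k : ℕ => 1 / ((k : ℝ) + 2) := by
      refine Summable.of_nonneg_of_le (fun k => by positivity) (fun k => ?_) h1
      rw [Real.rpow_one]
      exact sv_RR_lower k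
    have h3 : Summable fun k : ℕ => 1 / (k : ℝ) := by
      rw [← summable_nat_add_iff 2]
      refine h2.congr fun k => ?_
      push_cast; rfl
    exact Real.not_summable_one_div_natCast h3

end Pool.Agent.H668R3.NcInt
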