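import Mathlib
import Pool.Agent.H668R3.NcInt.Defs

/-! existence of a dilation invariant generalised limit -/

set_option autoImplicit false

open Filter Topology

noncomputable section

namespace Pool.Agent.H668R3.NcInt

/-- logarithmic weights; `W 0 = 0` -/
def W (k : ℕ) : ℝ := Real.log ((k : ℝ) + 1) - Real.log (k : ℝ)

lemma W_nonneg (k : ℕ) : 0 ≤ W k := by
  unfold W
  rcases Nat.eq_zero_or_pos k with h | h
  · subst h; simp
  · have : (0:ℝ) < k := by exact_mod_cast h
    have := Real.log_le_log this (by linarith : (k:ℝ) ≤ (k:ℝ) + 1)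
    linarith

lemma sum_W (n : ℕ) : ∑ k ∈ Finset.range n, W k = Real.log n := by
  induction n with
  | zero => simp
  | succ n ih =>
    rw [Finset.sum_range_succ, ih]
    unfold W
    push_cast
    ring

/-- weighted partial sums -/
def Fs (x : ℕ → ℝ) (n : ℕ) : ℝ := ∑ k ∈ Finset.range n, x k * W k

lemma Fs_diff {x : ℕ → ℝ} {C : ℝ} (hC : ∀ n, |x n| ≤ C) {a b : ℕ} (hab : a ≤ b) :
    |Fs x b - Fs x a| ≤ C * (Real.log b - Real.log a) := by
  unfold Fs
  rw [← Finset.sum_Ico_eq_sub _ hab, ← sum_W b, ← sum_W a, ← Finset.sum_Ico_eq_sub _ hab,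
    Finset.mul_sum]
  refine (Finset.abs_sum_le_sum_abs _ _).trans (Finset.sum_le_sum fun k _ => ?_)
  rw [abs_mul, abs_of_nonneg (W_nonneg k)]
  exact mul_le_mul_of_nonneg_right (hC k) (W_nonneg k)

lemma block (m j : ℕ) (hm : 0 < m) :
    ∑ r ∈ Finset.range m, W (m * j + r) = W j + if j = 0 then Real.log m else 0 := by
  have h1 : ∑ r ∈ Finset.range m, W (m * j + r) =
      Real.log ((m * j + m : ℕ) : ℝ) - Real.log ((m * j : ℕ) : ℝ) := by
    rw [← sum_W, ← sum_W, Finset.sum_range_add]
    ring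
  rw [h1]
  rcases Nat.eq_zero_or_pos j with h | h
  · subst h; simp [W]
  · rw [if_neg (by omega)]
    have hj : (0:ℝ) < j := by exact_mod_cast h
    have hm' : (0:ℝ) < m := by exact_mod_cast hm
    have h2 : ((m * j + m : ℕ) : ℝ) = m * ((j : ℝ) + 1) := by push_cast; ring
    have h3 : ((m * j : ℕ) : ℝ) = m * (j : ℝ) := by push_cast; ring
    rw [h2, h3, Real.log_mul (by positivity) (by positivity), Real.log_mul (by positivity)
      (by positivity)]
    unfold W
    ring

lemma Fs_mul (x : ℕ → ℝ) (m : ℕ) (hm : 0 < m) (N : ℕ) (hN : 0 < N) :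
    Fs (fun n => x (n / m)) (m * N) = Fs x N + x 0 * Real.log m := by
  induction N, hN using Nat.le_induction with
  | base =>
    unfold Fs
    have h1 : ∀ k ∈ Finset.range (m * (0 + 1)), x (k / m) * W k = x 0 * W (m * 0 + k) := by
      intro k hk
      rw [Finset.mem_range] at hk
      rw [Nat.div_eq_of_lt (by simpa using hk)]
      simp
    rw [Finset.sum_congr rfl h1, ← Finset.mul_sum]
    have := block m 0 hm
    simp only [zero_add, mul_one] at this ⊢
    rw [this]
    simp
    ring
  | succ N hN ih =>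
    have h1 : m * (N + 1) = m * N + m := by ring
    unfold Fs at ih ⊢
    rw [h1, Finset.sum_range_add, ih, Finset.sum_range_succ]
    have h2 : ∀ r ∈ Finset.range m, x ((m * N + r) / m) * W (m * N + r) = x N * W (m * N + r) := by
      intro r hr
      rw [Finset.mem_range] at hr
      rw [Nat.mul_add_div hm, Nat.div_eq_of_lt hr, add_zero]
    rw [Finset.sum_congr rfl h2, ← Finset.mul_sum, block m N hm, if_neg (by omega)]
    ring

/-- the logarithmic mean -/
def mean (x : ℕ → ℝ) (n : ℕ) : ℝ := Fs x n / Real.log n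

lemma Fs_abs {x : ℕ → ℝ} {C : ℝ} (hC : ∀ n, |x n| ≤ C) (n : ℕ) : |Fs x n| ≤ C * Real.log n := by
  have := Fs_diff hC (Nat.zero_le n)
  simpa [Fs] using this

lemma mean_abs {x : ℕ → ℝ} {C : ℝ} (hC : ∀ n, |x n| ≤ C) (n : ℕ) : |mean x n| ≤ C := by
  have hC0 : 0 ≤ C := (abs_nonneg _).trans (hC 0)
  unfold mean
  rw [abs_div, abs_of_nonneg (Real.log_natCast_nonneg n)]
  exact div_le_of_le_mul₀ (Real.log_natCast_nonneg n) hC0 (Fs_abs hC n)

lemma log_nat_tendsto : Tendsto (fun n : ℕ => Real.log (n : ℝ)) atTop atTop :=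
  Real.tendsto_log_atTop.comp tendsto_natCast_atTop_atTop

lemma mean_tendsto {x : ℕ → ℝ} {c : ℝ} (hx : Tendsto x atTop (𝓝 c)) :
    Tendsto (mean x) atTop (𝓝 c) := by
  have h1 : (fun k => (x k - c) * W k) =o[atTop] W := by
    have h2 : Tendsto (fun k => x k - c) atTop (𝓝 0) := by
      simpa using hx.sub_const c
    have h3 : (fun k => x k - c) =o[atTop] (fun _ => (1:ℝ)) := (Asymptotics.isLittleO_one_iff ℝ).mpr h2
    have h4 := h3.mul_isBigO (Asymptotics.isBigO_refl W atTop)
    simpa using h4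
  have h2 := h1.sum_range W_nonneg (by
    have : (fun n => ∑ i ∈ Finset.range n, W i) = fun n : ℕ => Real.log (n : ℝ) := by
      ext n; exact sum_W n
    rw [this]
    exact log_nat_tendsto)
  have h3 : (fun n => ∑ i ∈ Finset.range n, W i) = fun n : ℕ => Real.log (n : ℝ) := by
    ext n; exact sum_W n
  rw [h3] at h2
  have h4 := h2.tendsto_div_nhds_zero
  have h5 : Tendsto (fun n : ℕ => (∑ i ∈ Finset.range n, (x i - c) * W i) / Real.log (n : ℝ) + c)
      atTop (𝓝 c) := by
    simpa using h4.add_const c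
  refine h5.congr' ?_
  filter_upwards [eventually_ge_atTop 2] with n hn
  have hlog : 0 < Real.log (n : ℝ) := Real.log_pos (by exact_mod_cast (by omega : 1 < n))
  unfold mean Fs
  have h6 : ∑ i ∈ Finset.range n, (x i - c) * W i =
      ∑ i ∈ Finset.range n, x i * W i - c * Real.log n := by
    rw [← sum_W n, Finset.mul_sum, ← Finset.sum_sub_distrib]
    refine Finset.sum_congr rfl fun i _ => ?_
    ring
  rw [h6]
  field_simp
  ring

/-- the ultrafilter limit -/
def om (x : ℕ → ℝ) : ℝ := limUnder (hyperfilter ℕ : Filter ℕ) (mean x)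

lemma om_spec {x : ℕ → ℝ} (hx : Bdd x) : Tendsto (mean x) (hyperfilter ℕ : Filter ℕ) (𝓝 (om x)) := by
  obtain ⟨C, hC⟩ := hx
  have h1 : ∃ c ∈ Set.Icc (-C) C, (((hyperfilter ℕ).map (mean x) : Ultrafilter ℝ) : Filter ℝ) ≤ 𝓝 c := by
    apply isCompact_Icc.ultrafilter_le_nhds
    rw [le_principal_iff]
    apply Filter.mem_map.mpr
    apply Filter.Eventually.of_forall
    intro n
    exact abs_le.mp (mean_abs hC n)
  obtain ⟨c, _, hc⟩ := h1
  have h2 : Tendsto (mean x) (hyperfilter ℕ : Filter ℕ) (𝓝 c) := hc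
  unfold om
  rw [h2.limUnder_eq]
  exact h2

lemma om_eq {x : ℕ → ℝ} {c : ℝ} (h : Tendsto (mean x) (hyperfilter ℕ : Filter ℕ) (𝓝 c)) :
    om x = c := h.limUnder_eq

lemma hyper_le : (hyperfilter ℕ : Filter ℕ) ≤ atTop := by
  rw [← Nat.cofinite_eq_atTop]
  exact hyperfilter_le_cofinite

lemma mean_add (x y : ℕ → ℝ) : mean (fun n => x n + y n) = fun n => mean x n + mean y n := by
  ext n
  unfold mean Fs
  rw [← add_div, ← Finset.sum_add_distrib]
  simp only [add_mul]

lemma mean_smul (c : ℝ) (x : ℕ → ℝ) : mean (fun n => c * x n) = fun n => c * mean x n := by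
  ext n
  unfold mean Fs
  rw [mul_div_assoc', Finset.mul_sum]
  simp only [mul_assoc]

lemma dil_bound {x : ℕ → ℝ} {C : ℝ} (hC : ∀ n, |x n| ≤ C) (m : ℕ) (hm : 0 < m) (n : ℕ)
    (hn : m ≤ n) : |Fs (fun k => x (k / m)) n - Fs x n| ≤
      C * (Real.log 2 + Real.log m + Real.log (2 * m)) := by
  have hC0 : 0 ≤ C := (abs_nonneg _).trans (hC 0)
  set N := n / m with hN
  have hN1 : 0 < N := Nat.div_pos hn hm
  have h1 : m * N ≤ n := Nat.mul_div_le n m
  have h2 : n < m * (N + 1) := by
    have := Nat.lt_mul_div_succ n hm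
    simpa [hN] using this
  have hNle : N ≤ n := Nat.div_le_self _ _
  have hm' : (0:ℝ) < m := by exact_mod_cast hm
  have hN' : (1:ℝ) ≤ N := by exact_mod_cast hN1
  have hn' : (0:ℝ) < n := by exact_mod_cast (by omega : 0 < n)
  have e1 : |Fs (fun k => x (k / m)) n - Fs (fun k => x (k / m)) (m * N)| ≤ C * Real.log 2 := by
    refine (Fs_diff (fun k => hC (k / m)) h1).trans ?_
    apply mul_le_mul_of_nonneg_left _ hC0
    rw [← Real.log_div hn'.ne' (by positivity)]
    apply Real.log_le_log (by positivity)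
    rw [div_le_iff₀ (by positivity)]
    have h3 : (n : ℝ) ≤ m * ((N : ℝ) + 1) := by exact_mod_cast h2.le
    push_cast
    nlinarith
  have e2 : |Fs (fun k => x (k / m)) (m * N) - Fs x N| ≤ C * Real.log m := by
    rw [Fs_mul x m hm N hN1, add_sub_cancel_left, abs_mul, abs_of_nonneg (Real.log_natCast_nonneg m)]
    exact mul_le_mul_of_nonneg_right (hC 0) (Real.log_natCast_nonneg m)
  have e3 : |Fs x N - Fs x n| ≤ C * Real.log (2 * m) := by
    rw [abs_sub_comm]
    refine (Fs_diff hC hNle).trans ?_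
    apply mul_le_mul_of_nonneg_left _ hC0
    rw [← Real.log_div hn'.ne' (by positivity)]
    apply Real.log_le_log (by positivity)
    rw [div_le_iff₀ (by positivity)]
    have h3 : (n : ℝ) ≤ m * ((N : ℝ) + 1) := by exact_mod_cast h2.le
    nlinarith
  calc |Fs (fun k => x (k / m)) n - Fs x n|
      = |(Fs (fun k => x (k / m)) n - Fs (fun k => x (k / m)) (m * N)) +
          (Fs (fun k => x (k / m)) (m * N) - Fs x N) + (Fs x N - Fs x n)| := by congr 1; ring
    _ ≤ _ := (abs_add_le _ _).trans (add_le_add (abs_add_le _ _) le_rfl)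
    _ ≤ C * Real.log 2 + C * Real.log m + C * Real.log (2 * m) := by linarith
    _ = _ := by ring

/-- There is a dilation invariant generalised limit. -/
theorem om_isDilationLimit : IsDilationLimit om where
  add x y hx hy := by
    apply om_eq
    rw [mean_add]
    exact (om_spec hx).add (om_spec hy)
  smul c x hx := by
    apply om_eq
    rw [mean_smul]
    exact (om_spec hx).const_mul c
  nonneg x hx h0 := by
    refine ge_of_tendsto (om_spec hx) (Eventually.of_forall fun n => ?_)
    unfold mean Fs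
    exact div_nonneg (Finset.sum_nonneg fun k _ => mul_nonneg (h0 k) (W_nonneg k))
      (Real.log_natCast_nonneg n)
  limit x c h := om_eq ((mean_tendsto h).mono_left hyper_le)
  dilation x m hx hm := by
    apply om_eq
    have hx' := hx
    obtain ⟨C, hC⟩ := hx
    have h1 : Tendsto (fun n => mean (fun k => x (k / m)) n - mean x n) atTop (𝓝 0) := by
      have h2 : Tendsto (fun n : ℕ => (C * (Real.log 2 + Real.log m + Real.log (2 * m))) /
          Real.log (n : ℝ)) atTop (𝓝 0) := log_nat_tendsto.const_div_atTop _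
      apply squeeze_zero_norm' _ h2
      filter_upwards [eventually_ge_atTop m, eventually_ge_atTop 2] with n hn hn2
      have hlog : 0 < Real.log (n : ℝ) := Real.log_pos (by exact_mod_cast (by omega : 1 < n))
      unfold mean
      rw [← sub_div, Real.norm_eq_abs, abs_div, abs_of_pos hlog]
      exact div_le_div_of_nonneg_right (dil_bound hC m hm n hn) hlog.le
    have h2 := (h1.mono_left hyper_le).add (om_spec hx')
    simpa using h2

end Pool.Agent.H668R3.NcInt
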